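import Mathlib

set_option autoImplicit false

/-! Transcendence degrees of quotients of finitely generated algebras: strict inclusions of
primes, and the principal ideal theorem. -/

namespace Pool.Agent.R452.SZ

open MvPolynomial Cardinal Algebra

/-- a strict inclusion of primes drops the transcendence degree -/
theorem trdeg_quot_add_one_le {K A : Type} [Field K] [CommRing A] [Algebra K A] (p q : Ideal A)
    [p.IsPrime] [q.IsPrime] (h : p < q) :
    Algebra.trdeg K (A ⧸ q) + 1 ≤ Algebra.trdeg K (A ⧸ p) := by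
  obtain ⟨ι, x, hx⟩ := exists_isTranscendenceBasis' K (A ⧸ q)
  let f : (A ⧸ p) →ₐ[K] (A ⧸ q) := Ideal.Quotient.factorₐ K h.le
  have hf : Function.Surjective f := Ideal.Quotient.factor_surjective h.le
  choose y hy using fun i => hf (x i)
  have hfy : f ∘ y = x := funext hy
  have hyi : AlgebraicIndependent K y := AlgebraicIndependent.of_comp f (by rw [hfy]; exact hx.1)
  obtain ⟨g, hgq, hgp⟩ := SetLike.exists_of_lt h
  have hg0 : (Ideal.Quotient.mk p g) ≠ 0 := by
    rw [Ne, Ideal.Quotient.eq_zero_iff_mem]
    exact hgp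
  have hfg : f (Ideal.Quotient.mk p g) = 0 := by
    show Ideal.Quotient.factor h.le (Ideal.Quotient.mk p g) = 0
    rw [Ideal.Quotient.factor_mk, Ideal.Quotient.eq_zero_iff_mem]
    exact hgq
  have hopt : AlgebraicIndependent K
      (fun o : Option ι => o.elim (Ideal.Quotient.mk p g) y) := by
    rw [hyi.option_iff_transcendental]
    intro halg
    obtain ⟨r, hr0, hr⟩ := halg.exists_nonzero_dvd (mem_nonZeroDivisors_of_ne_zero hg0)
    obtain ⟨c, hc⟩ := hr
    have hfr : f (r : A ⧸ p) = 0 := by
      have : (r : A ⧸ p) = Ideal.Quotient.mk p g * c := hc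
      rw [this, map_mul, hfg, zero_mul]
    have hmem : (r : A ⧸ p) ∈ (aeval (R := K) y).range :=
      (Algebra.adjoin_range_eq_range_aeval K y).le r.2
    obtain ⟨φ, hφ⟩ := hmem
    have h1 : aeval x φ = 0 := by
      rw [← hfy]
      have h4 : aeval (f ∘ y) φ = f (aeval y φ) := by
        have := congrArg (fun F => F φ) (MvPolynomial.comp_aeval (R := K) y f)
        exact this.symm
      have hφ' : aeval y φ = (r : A ⧸ p) := hφ
      rw [h4, hφ', hfr]
    have h2 : φ = 0 := by
      apply (algebraicIndependent_iff.1 hx.1) φ h1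
    apply hr0
    apply Subtype.ext
    rw [← hφ, h2]
    simp
  have h3 := hopt.cardinalMk_le_trdeg
  rw [Cardinal.mk_option] at h3
  rwa [hx.cardinalMk_eq_trdeg] at h3

/-- the quotient of a polynomial ring by a prime element -/
theorem trdeg_quot_prime {K : Type} [Field K] (s : ℕ) (π : MvPolynomial (Fin s) K) (hπ : Prime π) :
    ((s : ℕ) : Cardinal) ≤ Algebra.trdeg K (MvPolynomial (Fin s) K ⧸ Ideal.span {π}) + 1 := by
  classical
  have hvars : π.vars.Nonempty := by
    rw [Finset.nonempty_iff_ne_empty]
    intro h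
    rw [vars_eq_empty_iff_eq_C] at h
    apply hπ.not_isUnit
    rw [h]
    have h0 : (π.coeff 0) ≠ 0 := by
      intro h1
      rw [h1, C_0] at h
      exact hπ.ne_zero h
    exact (IsUnit.mk0 _ h0).map C
  obtain ⟨i, hi⟩ := hvars
  have hdeg : 0 < π.degreeOf i := Nat.pos_of_ne_zero (mem_vars_iff_degreeOf_ne_zero.1 hi)
  have hind : AlgebraicIndependent K
      (fun j : {j : Fin s // j ≠ i} => (Ideal.Quotient.mk (Ideal.span {π}) (X j.1))) := by
    rw [algebraicIndependent_iff]
    intro φ hφ
    by_contra hne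
    have h1 : aeval (fun j : {j : Fin s // j ≠ i} =>
        (Ideal.Quotient.mk (Ideal.span {π}) (X j.1))) φ
        = Ideal.Quotient.mk (Ideal.span {π}) (rename Subtype.val φ) := by
      have h2 : aeval (fun j : {j : Fin s // j ≠ i} =>
          (Ideal.Quotient.mk (Ideal.span {π}) (X j.1)))
          = (Ideal.Quotient.mkₐ K (Ideal.span {π})).comp (rename Subtype.val) := by
        apply MvPolynomial.algHom_ext
        intro j
        simp
      rw [h2]
      rfl
    rw [h1, Ideal.Quotient.eq_zero_iff_mem, Ideal.mem_span_singleton] at hφ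
    obtain ⟨ψ, hψ⟩ := hφ
    have hren : rename Subtype.val φ ≠ (0 : MvPolynomial (Fin s) K) := by
      intro h
      apply hne
      apply rename_injective _ Subtype.val_injective
      rw [h, map_zero]
    have hψ0 : ψ ≠ 0 := by
      intro h
      rw [h, mul_zero] at hψ
      exact hren hψ
    have h3 : (rename Subtype.val φ : MvPolynomial (Fin s) K).degreeOf i = 0 := by
      by_contra h4
      have h5 := mem_vars_iff_degreeOf_ne_zero.2 h4
      obtain ⟨j, -, hj⟩ := mem_vars_rename _ _ h5
      exact j.2 hj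
    rw [hψ, degreeOf_mul_eq hπ.ne_zero hψ0] at h3
    omega
  have h6 := hind.cardinalMk_le_trdeg
  have h7 : (s : ℕ) = Fintype.card {j : Fin s // j ≠ i} + 1 := by
    have := i.2
    simp only [Fintype.card_subtype_compl, Fintype.card_fin, Fintype.card_unique]
    omega
  have h8 : ((s : ℕ) : Cardinal) = #{j : Fin s // j ≠ i} + 1 := by
    rw [Cardinal.mk_fintype]
    exact_mod_cast h7
  rw [h8]
  exact add_le_add_left h6 1

/-- a prime of height at most one drops the transcendence degree by at most one -/
theorem trdeg_le_of_height_le_one {K R : Type} [Field K] [CommRing R] [IsDomain R] [Algebra K R]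
    [Algebra.FiniteType K R] (Q : Ideal R) [hQ : Q.IsPrime] (hh : Q.height ≤ 1) :
    Algebra.trdeg K R ≤ Algebra.trdeg K (R ⧸ Q) + 1 := by
  obtain ⟨s, g, hginj, hgint⟩ := exists_integral_inj_algHom_of_fg K R
  algebraize [g.toRingHom]
  have : IsScalarTower K (MvPolynomial (Fin s) K) R := by
    apply IsScalarTower.of_algebraMap_eq
    intro x
    exact (g.commutes x).symm
  have : FaithfulSMul (MvPolynomial (Fin s) K) R := by
    rw [faithfulSMul_iff_algebraMap_injective]
    exact hginj
  have hNR : IsNoetherianRing R := Algebra.FiniteType.isNoetherianRing K R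
  let p : Ideal (MvPolynomial (Fin s) K) := Q.under (MvPolynomial (Fin s) K)
  have hpp : p.IsPrime := inferInstance
  have hlo : Q.LiesOver p := inferInstance
  have hint : Algebra.IsIntegral (MvPolynomial (Fin s) K) R := inferInstance
  have hph : p.height ≤ 1 := by
    have h1 := Ideal.height_eq_height_add_of_liesOver_of_hasGoingDown p Q
    refine le_trans ?_ hh
    rw [h1]
    exact le_self_add
  have htr : Algebra.trdeg K R = s := by
    have h1 := trdeg_add_eq K (MvPolynomial (Fin s) K) (A := R)
    rw [← h1, trdeg_eq_zero (R := MvPolynomial (Fin s) K) (A := R), add_zero, MvPolynomial.trdeg_of_isDomain]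
    simp
  have hle : Algebra.trdeg K (MvPolynomial (Fin s) K ⧸ p) ≤ Algebra.trdeg K (R ⧸ Q) := by
    apply trdeg_le_of_injective (Ideal.quotientMapₐ Q g (le_of_eq rfl))
    exact Ideal.quotientMap_injective
  rw [htr]
  refine le_trans ?_ (add_le_add_left hle 1)
  by_cases hbot : p = ⊥
  · have h1 : Algebra.trdeg K (MvPolynomial (Fin s) K) ≤
        Algebra.trdeg K (MvPolynomial (Fin s) K ⧸ p) := by
      apply trdeg_le_of_injective (Ideal.Quotient.mkₐ K p)
      rw [Ideal.Quotient.mkₐ_eq_mk, RingHom.injective_iff_ker_eq_bot, Ideal.mk_ker, hbot]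
    rw [MvPolynomial.trdeg_of_isDomain] at h1
    simp only [mk_fin, lift_natCast] at h1
    exact h1.trans (self_le_add_right _ _)
  · obtain ⟨π, hπp, hπ⟩ := Ideal.IsPrime.exists_mem_prime_of_ne_bot hpp hbot
    have h1 : p.height = 1 := by
      apply le_antisymm hph
      rw [Order.one_le_iff_ne_zero]
      intro h
      exact hbot (Ideal.height_eq_zero_iff_eq_bot.1 h)
    rw [Ideal.eq_span_singleton_of_height_eq_one h1 hπp hπ]
    exact trdeg_quot_prime s π hπ

/-- the principal ideal theorem for transcendence degrees -/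
theorem trdeg_le_of_minimalPrimes {K A : Type} [Field K] [CommRing A] [Algebra K A]
    [Algebra.FiniteType K A] (p q : Ideal A) [hp : p.IsPrime] (f : A)
    (hq : q ∈ (p ⊔ Ideal.span {f}).minimalPrimes) :
    Algebra.trdeg K (A ⧸ p) ≤ Algebra.trdeg K (A ⧸ q) + 1 := by
  have hNA : IsNoetherianRing A := Algebra.FiniteType.isNoetherianRing K A
  have hqp : q.IsPrime := hq.1.1
  have hpq : p ≤ q := le_sup_left.trans hq.1.2
  have h1 := Ideal.map_height_le_one_of_mem_minimalPrimes hq
  have hprime : (q.map (Ideal.Quotient.mk p)).IsPrime :=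
    Ideal.map_isPrime_of_surjective Ideal.Quotient.mk_surjective (by rw [Ideal.mk_ker]; exact hpq)
  have h2 := trdeg_le_of_height_le_one (K := K) (q.map (Ideal.Quotient.mk p)) h1
  have h3 := (DoubleQuot.quotQuotEquivQuotOfLEₐ K hpq).trdeg_eq
  have h4 : Algebra.trdeg K ((A ⧸ p) ⧸ q.map (Ideal.Quotient.mk p)) = Algebra.trdeg K (A ⧸ q) := h3
  rwa [h4] at h2

end Pool.Agent.R452.SZ
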