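import Mathlib

set_option autoImplicit false

/-! Lower growth of a function. -/

namespace Pool.Agent.R452.SZ

open Filter Finset Nat

/-- `r! f(T) / T ^ r` has lower limit at least `c` -/
def LowGrow (f : ℕ → ℕ) (r : ℕ) (c : ℝ) : Prop :=
  ∀ c' : ℝ, c' < c → ∀ᶠ T : ℕ in atTop, c' * (T : ℝ) ^ r ≤ (r ! : ℝ) * (f T : ℝ)

lemma LowGrow.mono {f g : ℕ → ℕ} {r : ℕ} {c d : ℝ} (h : LowGrow f r c) (hfg : ∀ t, f t ≤ g t)
    (hdc : d ≤ c) : LowGrow g r d := by
  intro c' hc'
  filter_upwards [h c' (lt_of_lt_of_le hc' hdc)] with T hT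
  refine hT.trans ?_
  have : (f T : ℝ) ≤ g T := by exact_mod_cast hfg T
  exact mul_le_mul_of_nonneg_left this (by positivity)

lemma lowGrow_of_nonpos (f : ℕ → ℕ) (r : ℕ) {c : ℝ} (hc : c ≤ 0) : LowGrow f r c := by
  intro c' hc'
  filter_upwards with T
  have h1 : c' * (T : ℝ) ^ r ≤ 0 := mul_nonpos_of_nonpos_of_nonneg (by linarith) (by positivity)
  have h2 : (0 : ℝ) ≤ (r ! : ℝ) * (f T : ℝ) := by positivity
  linarith

lemma LowGrow.add {f g : ℕ → ℕ} {r : ℕ} {a b : ℝ} (hf : LowGrow f r a) (hg : LowGrow g r b) :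
    LowGrow (fun t => f t + g t) r (a + b) := by
  intro c' hc'
  filter_upwards [hf (a - (a + b - c') / 2) (by linarith),
    hg (b - (a + b - c') / 2) (by linarith)] with T h1 h2
  push_cast
  nlinarith

lemma LowGrow.sum {ι : Type} (s : Finset ι) (f : ι → ℕ → ℕ) (r : ℕ) (c : ι → ℝ)
    (h : ∀ i ∈ s, LowGrow (f i) r (c i)) : LowGrow (fun t => ∑ i ∈ s, f i t) r (∑ i ∈ s, c i) := by
  classical
  induction s using Finset.induction_on with
  | empty =>
    simp only [Finset.sum_empty]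
    exact lowGrow_of_nonpos _ _ le_rfl
  | insert i s hi ih =>
    simp only [Finset.sum_insert hi]
    exact (h i (Finset.mem_insert_self i s)).add
      (ih fun j hj => h j (Finset.mem_insert_of_mem hj))

lemma LowGrow.shift {f : ℕ → ℕ} {r : ℕ} {c : ℝ} (h : LowGrow f r c) (e : ℕ) :
    LowGrow (fun t => f (t - e)) r c := by
  intro c' hc'
  by_cases hc0 : c' < 0
  · exact lowGrow_of_nonpos (fun t => f (t - e)) r le_rfl c' hc0
  push Not at hc0
  obtain ⟨c'', h1, h2⟩ := exists_between hc'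
  have h3 := h c'' h2
  have h4 : Tendsto (fun t : ℕ => t - e) atTop atTop := tendsto_sub_atTop_nat e
  have h5 : ∀ᶠ t : ℕ in atTop, c'' * ((t - e : ℕ) : ℝ) ^ r ≤ (r ! : ℝ) * (f (t - e) : ℝ) :=
    h4.eventually h3
  have h6 : Tendsto (fun t : ℕ => c'' * (1 - (e : ℝ) / t) ^ r) atTop (nhds (c'' * (1 - 0) ^ r)) :=
    ((tendsto_const_nhds.sub (tendsto_const_div_atTop_nhds_zero_nat (e : ℝ))).pow r).const_mul c''
  rw [sub_zero, one_pow, mul_one] at h6
  filter_upwards [h5, h6.eventually (lt_mem_nhds h1), eventually_ge_atTop (e + 1)] with t h7 h8 h9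
  refine le_trans ?_ h7
  have ht : (0 : ℝ) < t := by
    have : 0 < t := by omega
    exact_mod_cast this
  rw [Nat.cast_sub (by omega)]
  have h10 : ((t : ℝ) - e) = (1 - (e : ℝ) / t) * t := by
    field_simp
  rw [h10, mul_pow, ← mul_assoc]
  exact mul_le_mul_of_nonneg_right h8.le (by positivity)

lemma pow_succ_le_sum (r T : ℕ) : (T : ℝ) ^ (r + 1) ≤ (r + 1) * ∑ t ∈ range (T + 1), (t : ℝ) ^ r := by
  induction T with
  | zero =>
    rw [Nat.cast_zero, zero_pow (by omega)]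
    positivity
  | succ T ih =>
    rw [Finset.sum_range_succ, mul_add]
    have h1 : ((T + 1 : ℕ) : ℝ) ^ (r + 1) - (T : ℝ) ^ (r + 1) ≤ (r + 1) * ((T + 1 : ℕ) : ℝ) ^ r := by
      rw [← Commute.geom_sum₂_mul (Commute.all _ _)]
      push_cast
      rw [add_sub_cancel_left, mul_one]
      calc ∑ i ∈ range (r + 1), ((T : ℝ) + 1) ^ i * (T : ℝ) ^ (r + 1 - 1 - i)
          ≤ ∑ _i ∈ range (r + 1), ((T : ℝ) + 1) ^ r := by
            apply Finset.sum_le_sum
            intro i hi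
            have hi' : i ≤ r := by have := Finset.mem_range.1 hi; omega
            calc ((T : ℝ) + 1) ^ i * (T : ℝ) ^ (r + 1 - 1 - i)
                ≤ ((T : ℝ) + 1) ^ i * ((T : ℝ) + 1) ^ (r + 1 - 1 - i) := by
                  gcongr
                  linarith
              _ = ((T : ℝ) + 1) ^ r := by
                  rw [← pow_add]
                  congr 1
                  omega
        _ = (r + 1) * ((T : ℝ) + 1) ^ r := by simp
    linarith

lemma LowGrow.cum {g f : ℕ → ℕ} {r : ℕ} {c : ℝ} (h : LowGrow g r c)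
    (hfg : ∀ᶠ T : ℕ in atTop, ∑ t ∈ range (T + 1), g t ≤ f T) : LowGrow f (r + 1) c := by
  intro c' hc'
  by_cases hc0 : c' < 0
  · exact lowGrow_of_nonpos f (r + 1) le_rfl c' hc0
  push Not at hc0
  obtain ⟨c'', h1, h2⟩ := exists_between hc'
  have hc''0 : 0 ≤ c'' := by linarith
  obtain ⟨t0, ht0⟩ := eventually_atTop.1 (h c'' h2)
  let M : ℝ := c'' * (r + 1) * ∑ t ∈ range t0, (t : ℝ) ^ r
  have h3 : Tendsto (fun T : ℕ => (c'' - c') * (T : ℝ) ^ (r + 1)) atTop atTop := by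
    apply Tendsto.const_mul_atTop (by linarith)
    exact (tendsto_pow_atTop (by omega)).comp tendsto_natCast_atTop_atTop
  filter_upwards [hfg, h3.eventually (eventually_ge_atTop M), eventually_ge_atTop t0]
    with T h4 h5 h6
  have h7 : (∑ t ∈ range (T + 1), (g t : ℝ)) ≤ f T := by exact_mod_cast h4
  have h8 : c'' * ∑ t ∈ range (T + 1), (t : ℝ) ^ r - c'' * ∑ t ∈ range t0, (t : ℝ) ^ r
      ≤ (r ! : ℝ) * ∑ t ∈ range (T + 1), (g t : ℝ) := by
    rw [← Finset.sum_range_add_sum_Ico (fun t : ℕ => (t : ℝ) ^ r) (show t0 ≤ T + 1 by omega)]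
    rw [mul_add, add_sub_cancel_left]
    calc c'' * ∑ t ∈ Ico t0 (T + 1), (t : ℝ) ^ r = ∑ t ∈ Ico t0 (T + 1), c'' * (t : ℝ) ^ r := by
          rw [Finset.mul_sum]
      _ ≤ ∑ t ∈ Ico t0 (T + 1), (r ! : ℝ) * (g t : ℝ) := by
          apply Finset.sum_le_sum
          intro t ht
          exact ht0 t (Finset.mem_Ico.1 ht).1
      _ ≤ ∑ t ∈ range (T + 1), (r ! : ℝ) * (g t : ℝ) := by
          apply Finset.sum_le_sum_of_subset_of_nonneg
          · intro t ht
            have := (Finset.mem_Ico.1 ht).2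
            exact Finset.mem_range.2 this
          · intro t _ _
            positivity
      _ = (r ! : ℝ) * ∑ t ∈ range (T + 1), (g t : ℝ) := by rw [Finset.mul_sum]
  have h9 := pow_succ_le_sum r T
  have h10 : ((r + 1)! : ℝ) = (r + 1) * (r ! : ℝ) := by
    rw [Nat.factorial_succ]
    push_cast
    ring
  have hr1 : (0 : ℝ) < r + 1 := by positivity
  have h11 : c'' * (T : ℝ) ^ (r + 1) - M ≤ ((r + 1)! : ℝ) * (f T : ℝ) := by
    calc c'' * (T : ℝ) ^ (r + 1) - M
        ≤ c'' * ((r + 1) * ∑ t ∈ range (T + 1), (t : ℝ) ^ r) - M := by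
          have := mul_le_mul_of_nonneg_left h9 hc''0
          linarith
      _ = (r + 1) * (c'' * ∑ t ∈ range (T + 1), (t : ℝ) ^ r
            - c'' * ∑ t ∈ range t0, (t : ℝ) ^ r) := by
          simp only [M]
          ring
      _ ≤ (r + 1) * ((r ! : ℝ) * ∑ t ∈ range (T + 1), (g t : ℝ)) :=
          mul_le_mul_of_nonneg_left h8 hr1.le
      _ ≤ (r + 1) * ((r ! : ℝ) * f T) := by
          apply mul_le_mul_of_nonneg_left _ hr1.le
          exact mul_le_mul_of_nonneg_left h7 (by positivity)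
      _ = ((r + 1)! : ℝ) * (f T : ℝ) := by rw [h10]; ring
  linarith

end Pool.Agent.R452.SZ
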