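import Pool.Agent.R452.SZ.Vec

set_option autoImplicit false
set_option linter.unusedSectionVars false

/-! A small set of hyperplane sections containing all the points of bounded height that lie on a
hyperplane section of small height. -/

namespace Pool.Agent.R452.SZ

open Finset

variable {n : ℕ}

/-- the number of classes of vectors of norm at most `h` -/
noncomputable def ncl (L : AddSubgroup (Fin (n + 1) → ℤ)) (h : ℕ) : ℕ := by
  classical
  exact ((box (Fin (n + 1)) h).image (QuotientAddGroup.mk : _ → (Fin (n + 1) → ℤ) ⧸ L)).card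

/-- covering a box by translates of a smaller one -/
lemma ncl_double (L : AddSubgroup (Fin (n + 1) → ℤ)) (h : ℕ) :
    ncl L (2 * (h + 1)) ≤ 5 ^ (n + 1) * ncl L h := by
  classical
  unfold ncl
  have h1 : (box (Fin (n + 1)) 2).card = 5 ^ (n + 1) := by
    rw [card_box, Fintype.card_fin]
  rw [← h1, ← Finset.card_product]
  let F : (Fin (n + 1) → ℤ) × ((Fin (n + 1) → ℤ) ⧸ L) → ((Fin (n + 1) → ℤ) ⧸ L) := fun x =>
    QuotientAddGroup.mk ((2 * (h : ℤ) + 1) • x.1) + x.2
  refine (Finset.card_le_card ?_).trans (Finset.card_image_le (f := F))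
  intro c hc
  rw [Finset.mem_image] at hc
  obtain ⟨x, hx, rfl⟩ := hc
  rw [mem_box, nm_le_iff] at hx
  rw [Finset.mem_image]
  let s : Fin (n + 1) → ℤ := fun i => (x i + h) / (2 * h + 1)
  let y : Fin (n + 1) → ℤ := fun i => x i - (2 * h + 1) * s i
  have hpos : (0 : ℤ) < 2 * h + 1 := by positivity
  refine ⟨(s, QuotientAddGroup.mk y), ?_, ?_⟩
  · rw [Finset.mem_product]
    refine ⟨?_, ?_⟩
    · rw [mem_box, nm_le_iff]
      intro i
      have h2 := hx i
      have h3 : s i ≤ 2 := by
        apply Int.lt_add_one_iff.1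
        apply Int.ediv_lt_of_lt_mul hpos
        push_cast
        omega
      have h4 : -2 ≤ s i := by
        apply Int.le_ediv_of_mul_le hpos
        omega
      show (s i).natAbs ≤ 2
      omega
    · apply Finset.mem_image_of_mem
      rw [mem_box, nm_le_iff]
      intro i
      have h5 := Int.emod_add_mul_ediv (x i + h) (2 * h + 1)
      have h6 := Int.emod_nonneg (x i + h) hpos.ne'
      have h7 := Int.emod_lt_of_pos (x i + h) hpos
      have h8 : y i = (x i + h) % (2 * h + 1) - h := by
        simp only [y, s]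
        linarith
      rw [h8]
      omega
  · simp only [F]
    rw [← QuotientAddGroup.mk_add]
    congr 1
    funext i
    simp [y]

lemma ncl_zero (L : AddSubgroup (Fin (n + 1) → ℤ)) : ncl L 0 ≤ 1 := by
  classical
  unfold ncl
  refine Finset.card_image_le.trans ?_
  rw [card_box]
  simp

/-- representatives of the nonzero classes of small norm -/
lemma exists_reps (L : AddSubgroup (Fin (n + 1) → ℤ)) (h : ℕ) :
    ∃ R : Finset (Fin (n + 1) → ℤ), (∀ l ∈ R, l ∉ L) ∧ R.card ≤ ncl L h ∧
      ∀ P : Fin (n + 1) → ℤ, (∀ l ∈ L, l ⬝ᵥ P = 0) →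
        (∃ l, l ∉ L ∧ nm l ≤ h ∧ l ⬝ᵥ P = 0) → ∃ l ∈ R, l ⬝ᵥ P = 0 := by
  classical
  refine ⟨(((box (Fin (n + 1)) h).image
    (QuotientAddGroup.mk : _ → (Fin (n + 1) → ℤ) ⧸ L)).erase 0).image Quotient.out, ?_, ?_, ?_⟩
  · intro l hl
    rw [Finset.mem_image] at hl
    obtain ⟨c, hc, rfl⟩ := hl
    rw [Finset.mem_erase] at hc
    intro h
    apply hc.1
    rw [← QuotientAddGroup.out_eq' c]
    exact (QuotientAddGroup.eq_zero_iff _).2 h
  · unfold ncl
    exact Finset.card_image_le.trans (Finset.card_le_card (Finset.erase_subset _ _))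
  · rintro P hP ⟨l, hl, hlh, hlP⟩
    refine ⟨Quotient.out (QuotientAddGroup.mk l : (Fin (n + 1) → ℤ) ⧸ L), ?_, ?_⟩
    · apply Finset.mem_image_of_mem
      rw [Finset.mem_erase]
      refine ⟨?_, Finset.mem_image_of_mem _ (mem_box.2 hlh)⟩
      intro h
      exact hl ((QuotientAddGroup.eq_zero_iff _).1 h)
    · have h1 : -l + Quotient.out (QuotientAddGroup.mk l : (Fin (n + 1) → ℤ) ⧸ L) ∈ L := by
        rw [← QuotientAddGroup.eq]
        exact (QuotientAddGroup.out_eq' _).symm
      have h2 := hP _ h1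
      rw [add_dotProduct, neg_dotProduct, hlP] at h2
      linarith

/-- the covering lemma -/
theorem cover_lines (L : AddSubgroup (Fin (n + 1) → ℤ)) (B R : ℕ) (hB : 1 ≤ B) (hR : 1 ≤ R) :
    ∃ S : Finset (Fin (n + 1) → ℤ), (∀ l ∈ S, l ∉ L) ∧
      S.card ≤ 5 ^ (n + 1) * (2 * (n + 1) + 1) * (R * B) ∧
      ∀ P : Fin (n + 1) → ℤ, nm P ≤ B → (∀ l ∈ L, l ⬝ᵥ P = 0) →
        (∃ l, l ∉ L ∧ nm l ≤ R ∧ l ⬝ᵥ P = 0) → ∃ l ∈ S, l ⬝ᵥ P = 0 := by
  classical
  by_cases hcase : ncl L R ≤ 2 * ((n + 1) * R * B) + 1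
  · obtain ⟨S, hS1, hS2, hS3⟩ := exists_reps L R
    refine ⟨S, hS1, ?_, fun P _ hP hl => hS3 P hP hl⟩
    have hRB : 1 ≤ R * B := Nat.one_le_iff_ne_zero.2 (by positivity)
    have h5 : 1 ≤ 5 ^ (n + 1) := Nat.one_le_pow _ _ (by norm_num)
    calc S.card ≤ 2 * ((n + 1) * R * B) + 1 := hS2.trans hcase
      _ ≤ 2 * ((n + 1) * R * B) + R * B := by omega
      _ = 1 * ((2 * (n + 1) + 1) * (R * B)) := by ring
      _ ≤ 5 ^ (n + 1) * ((2 * (n + 1) + 1) * (R * B)) := Nat.mul_le_mul_right _ h5
      _ = 5 ^ (n + 1) * (2 * (n + 1) + 1) * (R * B) := by ring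
  · have hex : ∃ h, 2 * ((n + 1) * h * B) + 1 < ncl L h := ⟨R, by omega⟩
    obtain ⟨h, hh, hmin⟩ : ∃ h, 2 * ((n + 1) * h * B) + 1 < ncl L h ∧
        ∀ h' < h, ncl L h' ≤ 2 * ((n + 1) * h' * B) + 1 :=
      ⟨Nat.find hex, Nat.find_spec hex, fun h' hh' => by
        have := Nat.find_min hex hh'
        omega⟩
    have hhR : h ≤ R := by
      by_contra hlt
      have := hmin R (by omega)
      omega
    have hh1 : 1 ≤ h := by
      by_contra h0
      have h0' : h = 0 := by omega
      rw [h0'] at hh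
      have := ncl_zero L
      omega
    obtain ⟨h', rfl⟩ : ∃ h', h = h' + 1 := ⟨h - 1, by omega⟩
    obtain ⟨S, hS1, hS2, hS3⟩ := exists_reps L (2 * (h' + 1))
    refine ⟨S, hS1, ?_, ?_⟩
    · have h1 := hmin h' (by omega)
      calc S.card ≤ 5 ^ (n + 1) * ncl L h' := hS2.trans (ncl_double L h')
        _ ≤ 5 ^ (n + 1) * (2 * ((n + 1) * h' * B) + 1) := Nat.mul_le_mul_left _ h1
        _ ≤ 5 ^ (n + 1) * ((2 * (n + 1) + 1) * (R * B)) := by
            apply Nat.mul_le_mul_left
            have h2 : (h' + 1) * B ≤ R * B := Nat.mul_le_mul_right _ hhR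
            have h3 : 1 ≤ R * B := Nat.one_le_iff_ne_zero.2 (by positivity)
            calc 2 * ((n + 1) * h' * B) + 1 ≤ 2 * (n + 1) * ((h' + 1) * B) + 1 := by
                  have : (n + 1) * h' * B ≤ (n + 1) * ((h' + 1) * B) := by
                    rw [mul_assoc]
                    apply Nat.mul_le_mul_left
                    apply Nat.mul_le_mul_right
                    omega
                  rw [mul_assoc 2]
                  omega
              _ ≤ 2 * (n + 1) * (R * B) + R * B := by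
                  have := Nat.mul_le_mul_left (2 * (n + 1)) h2
                  omega
              _ = (2 * (n + 1) + 1) * (R * B) := by ring
        _ = 5 ^ (n + 1) * (2 * (n + 1) + 1) * (R * B) := by ring
    · intro P hPB hPL _
      apply hS3 P hPL
      -- pigeonhole
      let M : ℕ := (n + 1) * (h' + 1) * B
      have hval : ∀ l : Fin (n + 1) → ℤ,
          Quotient.out (QuotientAddGroup.mk l : (Fin (n + 1) → ℤ) ⧸ L) ⬝ᵥ P = l ⬝ᵥ P := by
        intro l
        have h1 : -l + Quotient.out (QuotientAddGroup.mk l : (Fin (n + 1) → ℤ) ⧸ L) ∈ L := by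
          rw [← QuotientAddGroup.eq]
          exact (QuotientAddGroup.out_eq' _).symm
        have h2 := hPL _ h1
        rw [add_dotProduct, neg_dotProduct] at h2
        linarith
      have hbd : ∀ l : Fin (n + 1) → ℤ, nm l ≤ h' + 1 → (l ⬝ᵥ P).natAbs ≤ M := by
        intro l hl
        refine (natAbs_dot_le l P).trans ?_
        rw [Fintype.card_fin]
        simp only [M]
        gcongr
      obtain ⟨c, hc, c', hc', hne, hcc⟩ := Finset.exists_ne_map_eq_of_card_lt_of_maps_to
        (s := (box (Fin (n + 1)) (h' + 1)).image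
          (QuotientAddGroup.mk : _ → (Fin (n + 1) → ℤ) ⧸ L))
        (t := Finset.Icc (-(M : ℤ)) M) (f := fun c => Quotient.out c ⬝ᵥ P) (by
          have h1 : (Finset.Icc (-(M : ℤ)) M).card = 2 * M + 1 := by
            rw [Int.card_Icc]
            omega
          rw [h1]
          exact hh) (by
          intro c hc
          rw [Finset.mem_coe, Finset.mem_image] at hc
          obtain ⟨l, hl, rfl⟩ := hc
          have h1 := hbd l (mem_box.1 hl)
          simp only [hval, Finset.coe_Icc, Set.mem_Icc]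
          omega)
      rw [Finset.mem_image] at hc hc'
      obtain ⟨l, hl, rfl⟩ := hc
      obtain ⟨l', hl', rfl⟩ := hc'
      simp only [hval] at hcc
      refine ⟨l - l', ?_, ?_, ?_⟩
      · intro h1
        apply hne
        rw [QuotientAddGroup.eq]
        have : -l + l' = -(l - l') := by abel
        rw [this]
        exact L.neg_mem h1
      · refine (nm_sub_le l l').trans ?_
        have h1 := mem_box.1 hl
        have h2 := mem_box.1 hl'
        omega
      · rw [sub_dotProduct, hcc, sub_self]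

end Pool.Agent.R452.SZ
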