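import Pool.Agent.R452.SZ.Pts2
import Pool.Agent.R452.SZ.Lines
import Pool.Agent.R452.SZ.Grow

set_option autoImplicit false
set_option linter.unusedSectionVars false

/-! The number of points with prescribed successive minima on an irreducible variety, against
the growth of its Hilbert function. -/

namespace Pool.Agent.R452.SZ

open MvPolynomial Module Algebra Filter

variable {n : ℕ}

attribute [local instance] MvPolynomial.gradedAlgebra

/-- the product of the entries from the index `m` on -/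
def tp (m : ℕ) (ρ : Fin n → ℕ) : ℕ := ∏ j : Fin n, if (j : ℕ) < m then 1 else ρ j

lemma tp_top (ρ : Fin n → ℕ) : tp n ρ = 1 := by
  unfold tp
  apply Finset.prod_eq_one
  intro j _
  rw [if_pos j.2]

lemma tp_succ (ρ : Fin n → ℕ) (m : ℕ) (hm : m < n) : tp m ρ = ρ ⟨m, hm⟩ * tp (m + 1) ρ := by
  unfold tp
  have h1 : ρ ⟨m, hm⟩ = ∏ j : Fin n, if j = ⟨m, hm⟩ then ρ j else 1 := by
    rw [Finset.prod_ite_eq']
    simp
  rw [h1, ← Finset.prod_mul_distrib]
  apply Finset.prod_congr rfl
  intro j _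
  by_cases h2 : (j : ℕ) < m
  · have h3 : ¬ j = ⟨m, hm⟩ := by
      intro h3
      rw [h3] at h2
      simp at h2
    rw [if_pos h2, if_pos (by omega : (j : ℕ) < m + 1), if_neg h3, one_mul]
  · rw [if_neg h2]
    by_cases h3 : j = ⟨m, hm⟩
    · rw [if_pos h3, h3]
      simp
    · have h5 : ¬ (j : ℕ) < m + 1 := by
        intro h4
        apply h3
        apply Fin.ext
        simp only
        omega
      rw [if_neg h3, one_mul, if_neg h5]

lemma tp_pos (ρ : Fin n → ℕ) (hρ : ∀ i, 1 ≤ ρ i) (m : ℕ) : 0 < tp m ρ := by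
  unfold tp
  apply Finset.prod_pos
  intro j _
  split_ifs
  · exact one_pos
  · exact hρ j

lemma LowGrow.monoe {f g : ℕ → ℕ} {r : ℕ} {c d : ℝ} (h : LowGrow f r c)
    (hfg : ∀ᶠ t in atTop, f t ≤ g t) (hdc : d ≤ c) : LowGrow g r d := by
  intro c' hc'
  filter_upwards [h c' (lt_of_lt_of_le hc' hdc), hfg] with T hT hT2
  refine hT.trans ?_
  have : (f T : ℝ) ≤ g T := by exact_mod_cast hT2
  exact mul_le_mul_of_nonneg_left this (by positivity)

/-- the point conditions -/
def Good (p : Ideal (MvPolynomial (Fin (n + 1)) ℚ)) (ρ : Fin n → ℕ) (B : ℕ)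
    (P : Fin (n + 1) → ℤ) : Prop :=
  P ≠ 0 ∧ nm P ≤ B ∧ Van p P ∧ ∃ l : Fin n → (Fin (n + 1) → ℤ),
    LinearIndependent ℚ (fun i => toQ (l i)) ∧ (∀ i, l i ⬝ᵥ P = 0) ∧ ∀ i, nm (l i) ≤ ρ i

/-- the constant of the covering lemma -/
def KK (n : ℕ) : ℕ := 5 ^ (n + 1) * (2 * (n + 1) + 1)

theorem alpha (ρ : Fin n → ℕ) (hρ1 : ∀ i, 1 ≤ ρ i) (hρ : Monotone ρ) (B : ℕ) (hB : 1 ≤ B) :
    ∀ (r : ℕ), r ≤ n → ∀ (p : Ideal (MvPolynomial (Fin (n + 1)) ℚ)), p.IsPrime →
      p.IsHomogeneous (homogeneousSubmodule (Fin (n + 1)) ℚ) →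
      Algebra.trdeg ℚ (MvPolynomial (Fin (n + 1)) ℚ ⧸ p) = ((r + 1 : ℕ) : Cardinal) →
      ∀ S : Finset (Fin (n + 1) → ℤ), (∀ P ∈ S, Good p ρ B P) →
      (∀ P ∈ S, ∀ Q ∈ S, (∀ i j, P i * Q j = P j * Q i) → P = Q) →
      LowGrow (hf p) r ((S.card : ℝ) / ((KK n : ℝ) ^ r * (B : ℝ) ^ r * (tp (n - r) ρ : ℝ))) := by
  classical
  have hBR : (0 : ℝ) < B := by exact_mod_cast hB
  have hKR : (0 : ℝ) < KK n := by
    unfold KK
    positivity
  intro r
  induction r with
  | zero =>
    intro _ p hp hhom htr S hS hSp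
    rcases S.eq_empty_or_nonempty with hSe | hSne
    · rw [hSe]
      simp only [Finset.card_empty, Nat.cast_zero, zero_div]
      exact lowGrow_of_nonpos _ _ le_rfl
    · have hcard : S.card ≤ 1 := by
        rw [Finset.card_le_one]
        intro P hP Q hQ
        apply hSp P hP Q hQ
        obtain ⟨h1, -, h2, -⟩ := hS P hP
        obtain ⟨h3, -, h4, -⟩ := hS Q hQ
        have htr1 : Algebra.trdeg ℚ (MvPolynomial (Fin (n + 1)) ℚ ⧸ p) = 1 := by
          rw [htr]
          simp
        exact fun i j => one_point hhom htr1 h1 h3 h2 h4 i j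
      have hc : ((S.card : ℝ) / ((KK n : ℝ) ^ 0 * (B : ℝ) ^ 0 * (tp (n - 0) ρ : ℝ))) ≤ 1 := by
        rw [Nat.sub_zero, tp_top]
        simp only [pow_zero, Nat.cast_one, mul_one, div_one]
        exact_mod_cast hcard
      intro c' hc'
      filter_upwards with T
      have hhf : 1 ≤ hf p T := by
        obtain ⟨P, hP⟩ := hSne
        obtain ⟨h1, -, h2, -⟩ := hS P hP
        obtain ⟨i, hi⟩ : ∃ i, P i ≠ 0 := by
          by_contra h
          push Not at h
          exact h1 (funext h)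
        unfold hf
        rw [Submodule.one_le_finrank_iff, Submodule.ne_bot_iff]
        refine ⟨Ideal.Quotient.mk p (X i ^ T), ?_, ?_⟩
        · rw [mem_piece]
          exact ⟨_, isHomogeneous_X_pow i T, rfl⟩
        · rw [Ne, Ideal.Quotient.eq_zero_iff_mem]
          intro hmem
          have h3 := h2 _ hmem
          simp only [map_pow, eval_X, toQ] at h3
          have h4 : (P i : ℚ) = 0 := by
            rcases Nat.eq_zero_or_pos T with hT | hT
            · rw [hT, pow_zero] at h3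
              norm_num at h3
            · exact (pow_eq_zero_iff (by omega)).1 h3
          exact hi (by exact_mod_cast h4)
      have h5 : (1 : ℝ) ≤ hf p T := by exact_mod_cast hhf
      simp only [pow_zero, mul_one, Nat.factorial_zero, Nat.cast_one, one_mul]
      linarith
  | succ r ih =>
    intro hrn p hp hhom htr S hS hSp
    rcases S.eq_empty_or_nonempty with hSe | hSne
    · rw [hSe]
      simp only [Finset.card_empty, Nat.cast_zero, zero_div]
      exact lowGrow_of_nonpos _ _ le_rfl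
    have hm : n - (r + 1) < n := by omega
    set R : ℕ := ρ ⟨n - (r + 1), hm⟩ with hRdef
    obtain ⟨LL, hL1, hL2, hL3⟩ := cover_lines (linSub p) B R hB (hρ1 _)
    have hcov : ∀ P ∈ S, ∃ l ∈ LL, l ⬝ᵥ P = 0 := by
      intro P hP
      obtain ⟨h1, h2, h3, l, hl1, hl2, hl3⟩ := hS P hP
      apply hL3 P h2 (fun l hl => h3.lin hl)
      obtain ⟨j, hj1, hj2⟩ := exists_lin_notMem p (r + 1) (by omega) hrn (by rw [htr]) l hl1
      refine ⟨l j, hj2, (hl3 j).trans (hρ ?_), hl2 j⟩
      rw [Fin.le_def]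
      exact hj1
    have hLne : LL.Nonempty := by
      obtain ⟨P, hP⟩ := hSne
      obtain ⟨l, hl, -⟩ := hcov P hP
      exact ⟨l, hl⟩
    have hpig : ∃ l ∈ LL, S.card ≤ LL.card * (S.filter fun P => l ⬝ᵥ P = 0).card := by
      by_contra hcon
      push Not at hcon
      have h1 : S ⊆ LL.biUnion fun l => S.filter fun P => l ⬝ᵥ P = 0 := by
        intro P hP
        obtain ⟨l, hl, hlP⟩ := hcov P hP
        rw [Finset.mem_biUnion]
        exact ⟨l, hl, Finset.mem_filter.2 ⟨hP, hlP⟩⟩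
      have h2 := (Finset.card_le_card h1).trans Finset.card_biUnion_le
      have h3 : LL.card * S.card < LL.card * S.card := by
        calc LL.card * S.card ≤ LL.card * ∑ l ∈ LL, (S.filter fun P => l ⬝ᵥ P = 0).card :=
              Nat.mul_le_mul_left _ h2
          _ = ∑ l ∈ LL, LL.card * (S.filter fun P => l ⬝ᵥ P = 0).card := Finset.mul_sum _ _ _
          _ < ∑ _l ∈ LL, S.card := Finset.sum_lt_sum_of_nonempty hLne hcon
          _ = LL.card * S.card := by simp
      exact lt_irrefl _ h3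
    obtain ⟨l, hl, hcard⟩ := hpig
    have hlp : linF l ∉ p := fun h => hL1 l hl (mem_linSub.2 h)
    set J : Ideal (MvPolynomial (Fin (n + 1)) ℚ) := p ⊔ Ideal.span {linF l} with hJ
    have hpJ : p ≤ J := le_sup_left
    have hlJ : linF l ∈ J := Ideal.mem_sup_right (Ideal.mem_span_singleton_self _)
    have hJhom : J.IsHomogeneous (homogeneousSubmodule (Fin (n + 1)) ℚ) := by
      apply hhom.sup
      apply Ideal.homogeneous_span
      intro x hx
      rw [Set.mem_singleton_iff] at hx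
      rw [hx]
      exact ⟨1, linF_hom l⟩
    have hfin := Ideal.finite_minimalPrimes_of_isNoetherianRing (MvPolynomial (Fin (n + 1)) ℚ) J
    set QQ : Finset (Ideal (MvPolynomial (Fin (n + 1)) ℚ)) := hfin.toFinset with hQQ
    have hQmem : ∀ q, q ∈ QQ ↔ q ∈ J.minimalPrimes := fun q => hfin.mem_toFinset
    have hQprime : ∀ q ∈ QQ, q.IsPrime := fun q hq => ((hQmem q).1 hq).1.1
    have hQJ : ∀ q ∈ QQ, J ≤ q := fun q hq => ((hQmem q).1 hq).1.2
    have hQhom : ∀ q ∈ QQ, q.IsHomogeneous (homogeneousSubmodule (Fin (n + 1)) ℚ) :=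
      fun q hq => minimalPrimes_hom hJhom ((hQmem q).1 hq)
    have hQinc : ∀ q ∈ QQ, ∀ q' ∈ QQ, q ≤ q' → q = q' := by
      intro q hq q' hq' hle
      exact le_antisymm hle (((hQmem q').1 hq').2 ((hQmem q).1 hq).1 hle)
    have hQtr : ∀ q ∈ QQ, Algebra.trdeg ℚ (MvPolynomial (Fin (n + 1)) ℚ ⧸ q)
        = ((r + 1 : ℕ) : Cardinal) := by
      intro q hq
      have hqp := hQprime q hq
      have hlt : p < q := by
        refine lt_of_le_of_ne (hpJ.trans (hQJ q hq)) ?_
        intro h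
        apply hlp
        rw [h]
        exact hQJ q hq hlJ
      have h1 := trdeg_quot_add_one_le (K := ℚ) p q hlt
      have h2 := trdeg_le_of_minimalPrimes (K := ℚ) p q (linF l) ((hQmem q).1 hq)
      rw [htr] at h1 h2
      have h3 : Algebra.trdeg ℚ (MvPolynomial (Fin (n + 1)) ℚ ⧸ q) < Cardinal.aleph0 :=
        lt_of_le_of_lt ((self_le_add_right _ _).trans h1) (Cardinal.natCast_lt_aleph0)
      obtain ⟨t, ht⟩ := Cardinal.lt_aleph0.1 h3
      rw [ht] at h1 h2 ⊢
      have h4 : t + 1 ≤ r + 1 + 1 := by exact_mod_cast h1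
      have h5 : r + 1 + 1 ≤ t + 1 := by exact_mod_cast h2
      have h6 : t = r + 1 := by omega
      rw [h6]
    -- the points of the section
    set Sl : Finset (Fin (n + 1) → ℤ) := S.filter fun P => l ⬝ᵥ P = 0 with hSl
    let SQ : Ideal (MvPolynomial (Fin (n + 1)) ℚ) → Finset (Fin (n + 1) → ℤ) := fun q =>
      Sl.filter fun P => Van q P
    have hSlcov : Sl.card ≤ ∑ q ∈ QQ, (SQ q).card := by
      refine (Finset.card_le_card ?_).trans Finset.card_biUnion_le
      intro P hP
      rw [Finset.mem_biUnion]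
      have hPS := Finset.mem_filter.1 hP
      obtain ⟨h1, h2, h3, -⟩ := hS P hPS.1
      have hJP : J ≤ RingHom.ker (eval (toQ P)) := by
        rw [hJ, sup_le_iff]
        constructor
        · intro f hf
          exact h3 f hf
        · rw [Ideal.span_singleton_le_iff_mem, RingHom.mem_ker, eval_linF, hPS.2]
          simp
      have hkerp : (RingHom.ker (eval (toQ P))).IsPrime := RingHom.ker_isPrime _
      obtain ⟨q, hq1, hq2⟩ := Ideal.exists_minimalPrimes_le hJP
      refine ⟨q, (hQmem q).2 hq1, Finset.mem_filter.2 ⟨hP, ?_⟩⟩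
      intro f hf
      exact hq2 hf
    set M : ℝ := (KK n : ℝ) ^ r * (B : ℝ) ^ r * (tp (n - r) ρ : ℝ) with hM
    have htp : (0 : ℝ) < (tp (n - r) ρ : ℝ) := by exact_mod_cast tp_pos ρ hρ1 _
    have hM0 : 0 < M := by positivity
    have hgrow : ∀ q ∈ QQ, LowGrow (hf q) r (((SQ q).card : ℝ) / M) := by
      intro q hq
      apply ih (by omega) q (hQprime q hq) (hQhom q hq) (hQtr q hq)
      · intro P hP
        have h1 := Finset.mem_filter.1 hP
        have h2 := Finset.mem_filter.1 h1.1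
        obtain ⟨h3, h4, -, h5⟩ := hS P h2.1
        exact ⟨h3, h4, h1.2, h5⟩
      · intro P hP Q hQ
        exact hSp P (Finset.mem_filter.1 (Finset.mem_filter.1 hP).1).1 Q
          (Finset.mem_filter.1 (Finset.mem_filter.1 hQ).1).1
    -- separating forms
    have hsep : ∀ q : QQ, ∃ (g : MvPolynomial (Fin (n + 1)) ℚ) (e : ℕ), g.IsHomogeneous e ∧
        g ∉ (q : Ideal (MvPolynomial (Fin (n + 1)) ℚ)) ∧
        ∀ q' ∈ QQ, q' ≠ (q : Ideal (MvPolynomial (Fin (n + 1)) ℚ)) → g ∈ q' := fun q =>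
      exists_sep_forms QQ hQprime hQhom hQinc q q.2
    choose g e hg1 hg2 hg3 using hsep
    have hgJ : LowGrow (hf J) r (∑ q : QQ, ((SQ q).card : ℝ) / M) := by
      have h1 : LowGrow (fun t => ∑ q : QQ, hf (q : Ideal (MvPolynomial (Fin (n + 1)) ℚ))
          (t - e q)) r (∑ q : QQ, ((SQ q).card : ℝ) / M) := by
        apply LowGrow.sum
        intro q _
        exact (hgrow q q.2).shift (e q)
      apply h1.monoe _ le_rfl
      filter_upwards [eventually_ge_atTop (∑ q : QQ, e q)] with t ht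
      apply sum_hf_le J (fun q : QQ => (q : Ideal (MvPolynomial (Fin (n + 1)) ℚ)))
        (fun q => hQprime q q.2) (fun q => hQJ q q.2) g e hg1 hg2
      · intro q q' hqq
        apply hg3 q q' q'.2
        intro h
        exact hqq (Subtype.ext h.symm)
      · intro q
        exact (Finset.single_le_sum (f := e) (fun _ _ => Nat.zero_le _) (Finset.mem_univ q)).trans
          ht
    have hgp : LowGrow (hf p) (r + 1) (∑ q : QQ, ((SQ q).card : ℝ) / M) := by
      apply hgJ.cum
      filter_upwards with T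
      exact sum_hf_cut hpJ (linF_hom l) hlp hlJ T
    apply hgp.mono (fun t => le_rfl)
    -- the final comparison
    have h1 : (∑ q : QQ, ((SQ q).card : ℝ) / M) = (∑ q ∈ QQ, ((SQ q).card : ℝ)) / M := by
      rw [← Finset.sum_div]
      congr 1
      exact Finset.sum_coe_sort QQ fun q => ((SQ q).card : ℝ)
    rw [h1]
    have h2 : (Sl.card : ℝ) ≤ ∑ q ∈ QQ, ((SQ q).card : ℝ) := by exact_mod_cast hSlcov
    have h3 : (S.card : ℝ) ≤ (LL.card : ℝ) * Sl.card := by exact_mod_cast hcard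
    have h4 : (LL.card : ℝ) ≤ (KK n : ℝ) * (R * B) := by
      have : LL.card ≤ KK n * (R * B) := hL2
      exact_mod_cast this
    have htps : (tp (n - (r + 1)) ρ : ℝ) = R * (tp (n - r) ρ : ℝ) := by
      have h5 := tp_succ ρ (n - (r + 1)) hm
      have h6 : n - (r + 1) + 1 = n - r := by omega
      rw [h6] at h5
      rw [h5]
      push_cast
      rfl
    have hR0 : (0 : ℝ) < R := by exact_mod_cast hρ1 _
    rw [div_le_div_iff₀ (by rw [htps]; positivity) hM0]
    have h7 : (S.card : ℝ) ≤ ((KK n : ℝ) * (R * B)) * ∑ q ∈ QQ, ((SQ q).card : ℝ) := by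
      calc (S.card : ℝ) ≤ (LL.card : ℝ) * Sl.card := h3
        _ ≤ ((KK n : ℝ) * (R * B)) * ∑ q ∈ QQ, ((SQ q).card : ℝ) := by gcongr
    calc (S.card : ℝ) * M ≤ (((KK n : ℝ) * (R * B)) * ∑ q ∈ QQ, ((SQ q).card : ℝ)) * M := by
          gcongr
      _ = (∑ q ∈ QQ, ((SQ q).card : ℝ)) *
          ((KK n : ℝ) ^ (r + 1) * (B : ℝ) ^ (r + 1) * (tp (n - (r + 1)) ρ : ℝ)) := by
          rw [htps, hM]
          ring

end Pool.Agent.R452.SZ
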