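import Pool.Agent.R452.SZ.Gam

set_option autoImplicit false
set_option linter.unusedSectionVars false

/-! Counting the vectors whose orthogonal lattice has prescribed successive minima. -/

namespace Pool.Agent.R452.SZ

open Finset Module

variable {n : ℕ}

/-- `P` and `Q` are orthogonal to a common family of `n` independent vectors -/
lemma prop_of_perp (P Q : Fin (n + 1) → ℤ) (hP : P ≠ 0) (l : Fin n → (Fin (n + 1) → ℤ))
    (hl : LinearIndependent ℚ (fun i => toQ (l i))) (hlP : ∀ i, l i ⬝ᵥ P = 0)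
    (hlQ : ∀ i, l i ⬝ᵥ Q = 0) (i j : Fin (n + 1)) : P i * Q j = P j * Q i := by
  classical
  have h1 : Submodule.span ℚ (Set.range fun i => toQ (l i)) = perp P := by
    apply Submodule.eq_of_le_of_finrank_eq
    · rw [Submodule.span_le]
      rintro _ ⟨i, rfl⟩
      exact toQ_mem_perp.2 (hlP i)
    · rw [finrank_span_eq_card hl, finrank_perp hP, Fintype.card_fin]
  have h2 : Submodule.span ℚ (Set.range fun i => toQ (l i)) ≤ perp Q := by
    rw [Submodule.span_le]
    rintro _ ⟨i, rfl⟩
    exact toQ_mem_perp.2 (hlQ i)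
  rw [h1] at h2
  have h3 : ∀ R : Fin (n + 1) → ℤ,
      (Pi.single i (P j) - Pi.single j (P i) : Fin (n + 1) → ℤ) ⬝ᵥ R = P j * R i - P i * R j := by
    intro R
    rw [sub_dotProduct, single_dotProduct, single_dotProduct]
  have h4 : toQ (Pi.single i (P j) - Pi.single j (P i) : Fin (n + 1) → ℤ) ∈ perp P := by
    rw [toQ_mem_perp, h3]
    ring
  have h5 := toQ_mem_perp.1 (h2 h4)
  rw [h3] at h5
  linarith

/-- the number of vectors with given bounds for the successive minima of the orthogonal
lattice -/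
theorem beta (a : Fin n → ℕ) (S : Finset (Fin (n + 1) → ℤ)) (hS0 : ∀ P ∈ S, P ≠ 0)
    (hSp : ∀ P ∈ S, ∀ Q ∈ S, (∀ i j, P i * Q j = P j * Q i) → P = Q)
    (hl : ∀ P ∈ S, ∃ l : Fin n → (Fin (n + 1) → ℤ), LinearIndependent ℚ (fun i => toQ (l i)) ∧
      (∀ i, l i ⬝ᵥ P = 0) ∧ ∀ i, nm (l i) ≤ 2 ^ a i) (ha : Monotone a) :
    S.card * ∏ j : Fin n, ∏ i : Fin n, (if i < j then 2 ^ (a j - a i) else 1)
      ≤ ∏ j : Fin n, (2 * ((n + 1) * 2 ^ a j) + 1) ^ (n + 1) := by
  classical
  have hl' : ∀ P : Fin (n + 1) → ℤ, ∃ l : Fin n → (Fin (n + 1) → ℤ), P ∈ S →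
      LinearIndependent ℚ (fun i => toQ (l i)) ∧
      (∀ i, l i ⬝ᵥ P = 0) ∧ ∀ i, nm (l i) ≤ 2 ^ a i := by
    intro P
    by_cases hP : P ∈ S
    · obtain ⟨l, h⟩ := hl P hP
      exact ⟨l, fun _ => h⟩
    · exact ⟨0, fun h => absurd h hP⟩
  choose l hl using hl'
  let C : Finset (Fin n → Fin n → ℤ) := Fintype.piFinset fun j => Fintype.piFinset fun i =>
    if i < j then Finset.Ico (0 : ℤ) (2 ^ (a j - a i)) else {0}
  have hC : C.card = ∏ j : Fin n, ∏ i : Fin n, (if i < j then 2 ^ (a j - a i) else 1) := by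
    simp only [C, Fintype.card_piFinset]
    apply Finset.prod_congr rfl
    intro j _
    apply Finset.prod_congr rfl
    intro i _
    split_ifs
    · rw [Int.card_Ico, sub_zero]
      have : ((2 : ℤ) ^ (a j - a i)) = ((2 ^ (a j - a i) : ℕ) : ℤ) := by push_cast; rfl
      rw [this, Int.toNat_natCast]
    · simp
  have hCmem : ∀ c ∈ C, ∀ j i, (i < j → 0 ≤ c j i ∧ c j i < 2 ^ (a j - a i)) ∧
      (¬ i < j → c j i = 0) := by
    intro c hc j i
    have h1 := Fintype.mem_piFinset.1 (Fintype.mem_piFinset.1 hc j) i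
    constructor
    · intro hij
      rw [if_pos hij, Finset.mem_Ico] at h1
      exact h1
    · intro hij
      rw [if_neg hij, Finset.mem_singleton] at h1
      exact h1
  let T : Finset (Fin n → Fin (n + 1) → ℤ) :=
    Fintype.piFinset fun j => box (Fin (n + 1)) ((n + 1) * 2 ^ a j)
  have hT : T.card = ∏ j : Fin n, (2 * ((n + 1) * 2 ^ a j) + 1) ^ (n + 1) := by
    simp only [T, Fintype.card_piFinset, card_box, Fintype.card_fin]
  rw [← hC, ← hT, ← Finset.card_product]
  let Φ : (Fin (n + 1) → ℤ) × (Fin n → Fin n → ℤ) → (Fin n → Fin (n + 1) → ℤ) :=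
    fun x j => l x.1 j + ∑ i, x.2 j i • l x.1 i
  apply Finset.card_le_card_of_injOn Φ
  · rintro ⟨P, c⟩ hx
    rw [Finset.mem_coe, Finset.mem_product] at hx
    obtain ⟨hP, hc⟩ := hx
    simp only at hP hc
    rw [Finset.mem_coe, Fintype.mem_piFinset]
    intro j
    rw [mem_box]
    obtain ⟨-, -, h3⟩ := hl P hP
    have h4 : nm (∑ i, c j i • l P i) ≤ n * 2 ^ a j := by
      refine (nm_sum_le _ _).trans ?_
      calc ∑ i, nm (c j i • l P i) ≤ ∑ _i : Fin n, 2 ^ a j := by
            apply Finset.sum_le_sum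
            intro i _
            rw [nm_smul]
            obtain ⟨h5, h6⟩ := hCmem c hc j i
            by_cases hij : i < j
            · have h7 := h5 hij
              have h8 : (c j i).natAbs ≤ 2 ^ (a j - a i) := by
                have : ((c j i).natAbs : ℤ) ≤ 2 ^ (a j - a i) := by
                  rw [Int.natCast_natAbs, abs_of_nonneg h7.1]
                  exact h7.2.le
                exact_mod_cast this
              calc (c j i).natAbs * nm (l P i) ≤ 2 ^ (a j - a i) * 2 ^ a i :=
                    Nat.mul_le_mul h8 (h3 i)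
                _ = 2 ^ a j := by
                    rw [← pow_add, Nat.sub_add_cancel (ha hij.le)]
            · rw [h6 hij]
              simp
        _ = n * 2 ^ a j := by simp
    calc nm (Φ (P, c) j) ≤ nm (l P j) + nm (∑ i, c j i • l P i) := nm_add_le _ _
      _ ≤ 2 ^ a j + n * 2 ^ a j := add_le_add (h3 j) h4
      _ = (n + 1) * 2 ^ a j := by ring
  · rintro ⟨P, c⟩ hx ⟨P', c'⟩ hx' hΦ
    rw [Finset.mem_coe, Finset.mem_product] at hx hx'
    obtain ⟨hP, hc⟩ := hx
    obtain ⟨hP', hc'⟩ := hx'
    simp only at hP hc hP' hc'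
    obtain ⟨h1, h2, h3⟩ := hl P hP
    obtain ⟨h1', h2', h3'⟩ := hl P' hP'
    have hj : ∀ j, l P j + ∑ i, c j i • l P i = l P' j + ∑ i, c' j i • l P' i := fun j =>
      congrFun hΦ j
    have horth : ∀ k : ℕ, ∀ j : Fin n, (j : ℕ) < k → l P j ⬝ᵥ P' = 0 := by
      intro k
      induction k with
      | zero => intro j hj; omega
      | succ k ih =>
        intro j hjk
        have h4 : (l P j + ∑ i, c j i • l P i) ⬝ᵥ P' = 0 := by
          rw [hj j, add_dotProduct, h2' j, sum_dotProduct, zero_add]
          apply Finset.sum_eq_zero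
          intro i _
          rw [smul_dotProduct, h2' i, smul_zero]
        rw [add_dotProduct, sum_dotProduct] at h4
        have h5 : ∑ i, (c j i • l P i) ⬝ᵥ P' = 0 := by
          apply Finset.sum_eq_zero
          intro i _
          by_cases hij : i < j
          · rw [smul_dotProduct, ih i (by have := Fin.lt_def.1 hij; omega), smul_zero]
          · rw [(hCmem c hc j i).2 hij, zero_smul, zero_dotProduct]
        rw [h5, add_zero] at h4
        exact h4
    have hPP : P = P' := by
      apply hSp P hP P' hP'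
      exact prop_of_perp P P' (hS0 P hP) (l P) h1 h2 (fun i => horth n i i.2)
    subst hPP
    have hcc : c = c' := by
      funext j
      have h6 : ∑ i, ((c j i - c' j i : ℤ) : ℚ) • toQ (l P i) = 0 := by
        have h7 : ∑ i, c j i • l P i = ∑ i, c' j i • l P i := add_left_cancel (hj j)
        have h8 : ∑ i, (c j i - c' j i) • l P i = 0 := by
          simp only [sub_smul, Finset.sum_sub_distrib]
          rw [h7, sub_self]
        have h9 := congrArg toQ h8
        rw [toQ_sum, toQ_zero] at h9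
        simpa only [toQ_smul] using h9
      funext i
      have h10 := Fintype.linearIndependent_iff.1 h1 _ h6 i
      have h11 : c j i - c' j i = 0 := by exact_mod_cast h10
      omega
    rw [hcc]

end Pool.Agent.R452.SZ
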