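import Mathlib

set_option autoImplicit false

/-! The sum over dyadic profiles. -/

namespace Pool.Agent.R452.SZ

open Finset

lemma geo_le (q : ℝ) (h0 : 0 ≤ q) (h1 : q < 1) (F : Finset ℕ) : ∑ x ∈ F, q ^ x ≤ (1 - q)⁻¹ := by
  rw [← tsum_geometric_of_lt_one h0 h1]
  exact (summable_geometric_of_lt_one h0 h1).sum_le_tsum F (fun _ _ => by positivity)

lemma sum1 (ε : ℝ) (hε : 0 < ε) : ∃ C : ℝ, 0 < C ∧ ∀ (c : ℝ) (F : Finset ℕ),
    ∑ x ∈ F, (2 : ℝ) ^ (-(ε * |(x : ℝ) - c|)) ≤ C := by
  set q : ℝ := (2 : ℝ) ^ (-ε) with hq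
  have hq0 : 0 < q := by positivity
  have hq1 : q < 1 := Real.rpow_lt_one_of_one_lt_of_neg (by norm_num) (by linarith)
  have hpow : ∀ k : ℕ, q ^ k = (2 : ℝ) ^ (-(ε * (k : ℝ))) := by
    intro k
    rw [hq, ← Real.rpow_natCast, ← Real.rpow_mul (by norm_num)]
    congr 1
    ring
  refine ⟨(1 - q)⁻¹ + (1 - q)⁻¹, by have : 0 < 1 - q := by linarith
                                    positivity, ?_⟩
  intro c F
  rw [← Finset.sum_filter_add_sum_filter_not F (fun x : ℕ => c ≤ (x : ℝ))]
  apply add_le_add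
  · calc ∑ x ∈ F.filter (fun x : ℕ => c ≤ (x : ℝ)), (2 : ℝ) ^ (-(ε * |(x : ℝ) - c|))
        ≤ ∑ x ∈ F.filter (fun x : ℕ => c ≤ (x : ℝ)), q ^ (x - ⌈c⌉₊) := by
          apply Finset.sum_le_sum
          intro x hx
          have hcx := (Finset.mem_filter.1 hx).2
          rw [hpow]
          apply Real.rpow_le_rpow_of_exponent_le (by norm_num)
          have h1 : ⌈c⌉₊ ≤ x := Nat.ceil_le.2 hcx
          have h2 : c ≤ (⌈c⌉₊ : ℝ) := Nat.le_ceil c
          rw [Nat.cast_sub h1, abs_of_nonneg (by linarith)]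
          nlinarith
      _ = ∑ y ∈ (F.filter (fun x : ℕ => c ≤ (x : ℝ))).image (fun x => x - ⌈c⌉₊), q ^ y := by
          rw [Finset.sum_image]
          intro x hx y hy hxy
          have h1 : ⌈c⌉₊ ≤ x := Nat.ceil_le.2 (Finset.mem_filter.1 hx).2
          have h2 : ⌈c⌉₊ ≤ y := Nat.ceil_le.2 (Finset.mem_filter.1 hy).2
          simp only at hxy
          omega
      _ ≤ (1 - q)⁻¹ := geo_le q hq0.le hq1 _
  · calc ∑ x ∈ F.filter (fun x : ℕ => ¬ c ≤ (x : ℝ)), (2 : ℝ) ^ (-(ε * |(x : ℝ) - c|))
        ≤ ∑ x ∈ F.filter (fun x : ℕ => ¬ c ≤ (x : ℝ)), q ^ (⌊c⌋₊ - x) := by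
          apply Finset.sum_le_sum
          intro x hx
          have hcx := not_le.1 (Finset.mem_filter.1 hx).2
          rw [hpow]
          apply Real.rpow_le_rpow_of_exponent_le (by norm_num)
          have h1 : x ≤ ⌊c⌋₊ := Nat.le_floor hcx.le
          have h2 : (⌊c⌋₊ : ℝ) ≤ c := Nat.floor_le ((Nat.cast_nonneg x).trans hcx.le)
          rw [Nat.cast_sub h1, abs_of_nonpos (by linarith)]
          nlinarith
      _ = ∑ y ∈ (F.filter (fun x : ℕ => ¬ c ≤ (x : ℝ))).image (fun x => ⌊c⌋₊ - x), q ^ y := by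
          rw [Finset.sum_image]
          intro x hx y hy hxy
          have h1 : x ≤ ⌊c⌋₊ := Nat.le_floor (not_le.1 (Finset.mem_filter.1 hx).2).le
          have h2 : y ≤ ⌊c⌋₊ := Nat.le_floor (not_le.1 (Finset.mem_filter.1 hy).2).le
          simp only at hxy
          omega
      _ ≤ (1 - q)⁻¹ := geo_le q hq0.le hq1 _

/-- the sum of the differences `a j - a i` over the pairs `i < j` -/
noncomputable def gap {n : ℕ} (a : Fin n → ℕ) : ℝ :=
  ∑ j : Fin n, ∑ i : Fin n, if i < j then ((a j : ℝ) - (a i : ℝ)) else 0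

/-- the sum of the last entries -/
noncomputable def topSum {n : ℕ} (m : ℕ) (a : Fin n → ℕ) : ℝ :=
  ∑ i : Fin n, if (i : ℕ) < m then 0 else (a i : ℝ)

lemma card_low (n m : ℕ) (h : m ≤ n) :
    ∑ i : Fin n, (if (i : ℕ) < m then (1 : ℝ) else 0) = m := by
  rw [Finset.sum_boole, Fin.card_filter_val_lt, min_eq_right h]

lemma card_high (n m : ℕ) (h : m ≤ n) :
    ∑ i : Fin n, (if (i : ℕ) < m then (0 : ℝ) else 1) = n - m := by
  have h1 : ∑ i : Fin n, ((if (i : ℕ) < m then (1 : ℝ) else 0) + (if (i : ℕ) < m then (0 : ℝ) else 1))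
      = n := by
    have : ∀ i : Fin n, ((if (i : ℕ) < m then (1 : ℝ) else 0) + (if (i : ℕ) < m then (0 : ℝ) else 1))
        = 1 := by
      intro i
      split_ifs <;> norm_num
    simp only [this]
    simp
  rw [Finset.sum_add_distrib, card_low n m h] at h1
  linarith

/-- the pointwise inequality -/
lemma point_ineq (n m : ℕ) (hn : 1 ≤ n) (hm : m ≤ n) (s0 L : ℝ) (a : Fin n → ℕ) (ha : Monotone a)
    (hL : ∑ i, (a i : ℝ) ≤ L) :
    min ((n + 1) * s0 + (n - m) * L + topSum m a) ((n + 1) * (∑ i, (a i : ℝ)) - gap a)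
      ≤ (n * s0 + ((n - m) + 1) * L) - ∑ i : Fin n, (1 / (2 * (n + 1) * n)) *
        |(a i : ℝ) - (if (i : ℕ) < m then s0 / m else (L - s0) / (n - m))| := by
  set s : ℝ := ∑ i : Fin n, if (i : ℕ) < m then (a i : ℝ) else 0 with hs
  set t : ℝ := topSum m a with ht
  have hst : ∑ i, (a i : ℝ) = s + t := by
    rw [hs, ht, topSum, ← Finset.sum_add_distrib]
    apply Finset.sum_congr rfl
    intro i _
    split_ifs <;> simp
  have haR : ∀ i j : Fin n, i ≤ j → (a i : ℝ) ≤ a j := fun i j hij => by exact_mod_cast ha hij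
  set D : ℝ := ∑ j : Fin n, ∑ i : Fin n,
    if (i < j ∧ ((i : ℕ) < m ↔ (j : ℕ) < m)) then ((a j : ℝ) - (a i : ℝ)) else 0 with hD
  have hDterm : ∀ i j : Fin n, 0 ≤
      (if (i < j ∧ ((i : ℕ) < m ↔ (j : ℕ) < m)) then ((a j : ℝ) - (a i : ℝ)) else 0) := by
    intro i j
    split_ifs with h
    · linarith [haR i j h.1.le]
    · exact le_rfl
  have hD0 : 0 ≤ D := Finset.sum_nonneg fun j _ => Finset.sum_nonneg fun i _ => hDterm i j
  have hDpair : ∀ i j : Fin n, ((i : ℕ) < m ↔ (j : ℕ) < m) → |(a j : ℝ) - a i| ≤ D := by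
    have hlt : ∀ i j : Fin n, i < j → ((i : ℕ) < m ↔ (j : ℕ) < m) → (a j : ℝ) - a i ≤ D := by
      intro i j hij hg
      calc (a j : ℝ) - a i
          = (if (i < j ∧ ((i : ℕ) < m ↔ (j : ℕ) < m)) then ((a j : ℝ) - (a i : ℝ)) else 0) := by
            rw [if_pos ⟨hij, hg⟩]
        _ ≤ ∑ i : Fin n, (if (i < j ∧ ((i : ℕ) < m ↔ (j : ℕ) < m)) then
              ((a j : ℝ) - (a i : ℝ)) else 0) :=
            Finset.single_le_sum (f := fun i => (if (i < j ∧ ((i : ℕ) < m ↔ (j : ℕ) < m)) then
              ((a j : ℝ) - (a i : ℝ)) else 0)) (fun i _ => hDterm i j) (Finset.mem_univ i)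
        _ ≤ D := Finset.single_le_sum (f := fun j => ∑ i : Fin n,
              (if (i < j ∧ ((i : ℕ) < m ↔ (j : ℕ) < m)) then ((a j : ℝ) - (a i : ℝ)) else 0))
              (fun j _ => Finset.sum_nonneg fun i _ => hDterm i j) (Finset.mem_univ j)
    intro i j hg
    rcases lt_trichotomy i j with h | h | h
    · rw [abs_of_nonneg (by linarith [haR i j h.le])]
      exact hlt i j h hg
    · subst h
      simpa using hD0
    · rw [abs_sub_comm, abs_of_nonneg (by linarith [haR j i h.le])]
      exact hlt j i h hg.symm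
  have hlow := card_low n m hm
  have hhigh := card_high n m hm
  have hcross : gap a = D + (m * t - (n - m) * s) := by
    have h1 : gap a = D + ∑ j : Fin n, ∑ i : Fin n,
        ((if (i : ℕ) < m then (1 : ℝ) else 0) * (if (j : ℕ) < m then 0 else (a j : ℝ))
          - (if (i : ℕ) < m then (a i : ℝ) else 0) * (if (j : ℕ) < m then (0 : ℝ) else 1)) := by
      rw [hD, gap, ← Finset.sum_add_distrib]
      apply Finset.sum_congr rfl
      intro j _
      rw [← Finset.sum_add_distrib]
      apply Finset.sum_congr rfl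
      intro i _
      by_cases hi : (i : ℕ) < m <;> by_cases hj : (j : ℕ) < m <;> by_cases hij : i < j
      · simp [hi, hj, hij]
      · simp [hi, hj, hij]
      · simp [hi, hj, hij]
      · exfalso
        rw [Fin.lt_def] at hij
        omega
      · exfalso
        rw [Fin.lt_def] at hij
        omega
      · simp [hi, hj, hij]
      · simp [hi, hj, hij]
      · simp [hi, hj, hij]
    rw [h1]
    congr 1
    simp only [Finset.sum_sub_distrib, ← Finset.sum_mul, ← Finset.mul_sum]
    rw [hlow, hhigh, ← hs]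
    have h2 : ∑ j : Fin n, (if (j : ℕ) < m then 0 else (a j : ℝ)) = t := by
      rw [ht, topSum]
    rw [h2]
    ring
  set σ : ℝ := s - s0 with hσ
  set lam : ℝ := L - s - t with hlam
  have hlam0 : 0 ≤ lam := by rw [hst] at hL; linarith
  have hn' : (1 : ℝ) ≤ n := by exact_mod_cast hn
  have hmn : (m : ℝ) ≤ n := by exact_mod_cast hm
  have hm0 : (0 : ℝ) ≤ m := Nat.cast_nonneg m
  set η : ℝ := 1 / (2 * (n + 1)) with hη
  have hη0 : 0 < η := by positivity
  have hη1 : η * (2 * (n + 1)) = 1 := by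
    rw [hη]
    field_simp
  set E : ℝ := |σ| + lam + D with hE
  have hE0 : 0 ≤ E := by positivity
  have hX : (n + 1) * s0 + (n - m) * L + t = (n * s0 + ((n - m) + 1) * L) + (-σ - lam) := by
    rw [hσ, hlam]; ring
  have hY : (n + 1) * (∑ i, (a i : ℝ)) - gap a
      = (n * s0 + ((n - m) + 1) * L) + (n * σ - ((n - m) + 1) * lam - D) := by
    rw [hst, hcross, hσ, hlam]; ring
  have hmin : min ((n + 1) * s0 + (n - m) * L + t) ((n + 1) * (∑ i, (a i : ℝ)) - gap a)
      ≤ (n * s0 + ((n - m) + 1) * L) - η * E := by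
    rcases le_total 0 σ with h | h
    · have h1 : min ((n + 1) * s0 + (n - m) * L + t) ((n + 1) * (∑ i, (a i : ℝ)) - gap a)
          ≤ (1 - η) * ((n + 1) * s0 + (n - m) * L + t)
            + η * ((n + 1) * (∑ i, (a i : ℝ)) - gap a) := by
        have hη2 : η ≤ 1 := by
          rw [hη, div_le_one (by positivity)]
          linarith
        have e1 := min_le_left ((n + 1) * s0 + (n - m) * L + t)
          ((n + 1) * (∑ i, (a i : ℝ)) - gap a)
        have e2 := min_le_right ((n + 1) * s0 + (n - m) * L + t)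
          ((n + 1) * (∑ i, (a i : ℝ)) - gap a)
        have e3 := mul_le_mul_of_nonneg_left e1 (by linarith : 0 ≤ 1 - η)
        have e4 := mul_le_mul_of_nonneg_left e2 hη0.le
        linarith
      refine h1.trans ?_
      rw [hX, hY, hE, abs_of_nonneg h]
      have e3 : (1 - η) * ((n * s0 + ((n - m) + 1) * L) + (-σ - lam))
          + η * ((n * s0 + ((n - m) + 1) * L) + (n * σ - ((n - m) + 1) * lam - D))
          = (n * s0 + ((n - m) + 1) * L) - (1 - η * (n + 1)) * σ
            - (1 + η * (n - m)) * lam - η * D := by ring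
      rw [e3]
      have hη3 : η ≤ 1 / 4 := by
        rw [hη, div_le_div_iff₀ (by positivity) (by norm_num)]
        linarith
      have e4 : η ≤ 1 - η * (n + 1) := by linarith
      have e5 : η ≤ 1 + η * (n - m) := by
        have := mul_nonneg hη0.le (sub_nonneg.2 hmn)
        linarith
      have e6 := mul_le_mul_of_nonneg_right e4 h
      have e7 := mul_le_mul_of_nonneg_right e5 hlam0
      linarith
    · refine (min_le_right _ _).trans ?_
      rw [hY, hE, abs_of_nonpos h]
      have hη2 : η ≤ 1 := by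
        rw [hη, div_le_one (by positivity)]
        linarith
      have e4 : (n : ℝ) * σ ≤ η * σ := mul_le_mul_of_nonpos_right (hη2.trans hn') h
      have e5 : η * lam ≤ (((n : ℝ) - m) + 1) * lam :=
        mul_le_mul_of_nonneg_right (by linarith) hlam0
      have e6 : η * D ≤ 1 * D := mul_le_mul_of_nonneg_right hη2 hD0
      linarith
  refine hmin.trans ?_
  have hterm : ∀ i : Fin n,
      |(a i : ℝ) - (if (i : ℕ) < m then s0 / m else (L - s0) / (n - m))| ≤ E := by
    intro i
    by_cases hi : (i : ℕ) < m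
    · rw [if_pos hi]
      have hm1 : (1 : ℝ) ≤ m := by
        have : 1 ≤ m := by omega
        exact_mod_cast this
      have h1 : (m : ℝ) * ((a i : ℝ) - s0 / m)
          = (∑ j : Fin n, if (j : ℕ) < m then ((a i : ℝ) - a j) else 0) + σ := by
        have h2 : (∑ j : Fin n, if (j : ℕ) < m then ((a i : ℝ) - a j) else 0)
            = m * (a i : ℝ) - s := by
          rw [← hlow, hs, Finset.sum_mul, ← Finset.sum_sub_distrib]
          apply Finset.sum_congr rfl
          intro j _
          split_ifs <;> simp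
        rw [h2, hσ]
        field_simp
        ring
      have h3 : |(m : ℝ) * ((a i : ℝ) - s0 / m)| ≤ m * D + |σ| := by
        rw [h1]
        refine (abs_add_le _ _).trans (add_le_add ?_ le_rfl)
        refine (Finset.abs_sum_le_sum_abs _ _).trans ?_
        calc ∑ j : Fin n, |if (j : ℕ) < m then ((a i : ℝ) - a j) else 0|
            ≤ ∑ j : Fin n, (if (j : ℕ) < m then (1 : ℝ) else 0) * D := by
              apply Finset.sum_le_sum
              intro j _
              by_cases hj : (j : ℕ) < m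
              · rw [if_pos hj, if_pos hj, one_mul]
                exact hDpair j i (by tauto)
              · rw [if_neg hj, if_neg hj]
                simp
          _ = m * D := by rw [← Finset.sum_mul, hlow]
      rw [abs_mul, abs_of_nonneg hm0] at h3
      have h4 : (m : ℝ) * |(a i : ℝ) - s0 / m| ≤ m * E := by
        refine h3.trans ?_
        rw [hE]
        have h5 := mul_le_mul_of_nonneg_right hm1 (abs_nonneg σ)
        have h6 := mul_nonneg hm0 hlam0
        rw [one_mul] at h5
        linarith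
      exact le_of_mul_le_mul_left h4 (by linarith)
    · rw [if_neg hi]
      have hm1 : (1 : ℝ) ≤ (n : ℝ) - m := by
        have h0 : m + 1 ≤ n := by have := i.2; omega
        have : ((m + 1 : ℕ) : ℝ) ≤ n := by exact_mod_cast h0
        push_cast at this
        linarith
      have h1 : ((n : ℝ) - m) * ((a i : ℝ) - (L - s0) / (n - m))
          = (∑ j : Fin n, if (j : ℕ) < m then 0 else ((a i : ℝ) - a j)) + (-σ - lam) := by
        have h2 : (∑ j : Fin n, if (j : ℕ) < m then 0 else ((a i : ℝ) - a j))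
            = (n - m) * (a i : ℝ) - t := by
          rw [← hhigh, ht, topSum, Finset.sum_mul, ← Finset.sum_sub_distrib]
          apply Finset.sum_congr rfl
          intro j _
          split_ifs <;> simp
        rw [h2, hσ, hlam]
        have : ((n : ℝ) - m) ≠ 0 := by linarith
        field_simp
        ring
      have h3 : |((n : ℝ) - m) * ((a i : ℝ) - (L - s0) / (n - m))|
          ≤ (n - m) * D + (|σ| + lam) := by
        rw [h1]
        refine (abs_add_le _ _).trans (add_le_add ?_ ?_)
        · refine (Finset.abs_sum_le_sum_abs _ _).trans ?_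
          calc ∑ j : Fin n, |if (j : ℕ) < m then 0 else ((a i : ℝ) - a j)|
              ≤ ∑ j : Fin n, (if (j : ℕ) < m then (0 : ℝ) else 1) * D := by
                apply Finset.sum_le_sum
                intro j _
                by_cases hj : (j : ℕ) < m
                · rw [if_pos hj, if_pos hj]
                  simp
                · rw [if_neg hj, if_neg hj, one_mul]
                  exact hDpair j i (by tauto)
            _ = (n - m) * D := by rw [← Finset.sum_mul, hhigh]
        · refine (abs_sub _ _).trans ?_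
          rw [abs_neg, abs_of_nonneg hlam0]
      rw [abs_mul, abs_of_nonneg (by linarith : (0 : ℝ) ≤ (n : ℝ) - m)] at h3
      have h4 : ((n : ℝ) - m) * |(a i : ℝ) - (L - s0) / (n - m)| ≤ (n - m) * E := by
        refine h3.trans ?_
        rw [hE]
        have h5 := mul_le_mul_of_nonneg_right hm1 (abs_nonneg σ)
        have h6 := mul_le_mul_of_nonneg_right hm1 hlam0
        rw [one_mul] at h5 h6
        linarith
      exact le_of_mul_le_mul_left h4 (by linarith)
  have hsum : ∑ i : Fin n, (1 / (2 * ((n : ℝ) + 1) * n)) *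
      |(a i : ℝ) - (if (i : ℕ) < m then s0 / m else (L - s0) / (n - m))| ≤ η * E := by
    calc ∑ i : Fin n, (1 / (2 * ((n : ℝ) + 1) * n)) *
          |(a i : ℝ) - (if (i : ℕ) < m then s0 / m else (L - s0) / (n - m))|
        ≤ ∑ _i : Fin n, (1 / (2 * ((n : ℝ) + 1) * n)) * E := by
          apply Finset.sum_le_sum
          intro i _
          exact mul_le_mul_of_nonneg_left (hterm i) (by positivity)
      _ = η * E := by
          rw [Finset.sum_const, Finset.card_univ, Fintype.card_fin, nsmul_eq_mul, hη]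
          field_simp
  linarith

/-- the sum over all profiles -/
theorem profile_sum (n m : ℕ) (hn : 1 ≤ n) (hm : m ≤ n) : ∃ C : ℝ, 0 < C ∧
    ∀ (s0 L : ℝ) (A : Finset (Fin n → ℕ)), (∀ a ∈ A, Monotone a ∧ ∑ i, (a i : ℝ) ≤ L) →
      ∑ a ∈ A, (2 : ℝ) ^ (min ((n + 1) * s0 + (n - m) * L + topSum m a)
        ((n + 1) * (∑ i, (a i : ℝ)) - gap a)) ≤ C * (2 : ℝ) ^ (n * s0 + ((n - m) + 1) * L) := by
  classical
  have hn' : (1 : ℝ) ≤ n := by exact_mod_cast hn
  obtain ⟨C, hC, hsum⟩ := sum1 (1 / (2 * (n + 1) * n)) (by positivity)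
  refine ⟨C ^ n, by positivity, fun s0 L A hA => ?_⟩
  let c : Fin n → ℝ := fun i => if (i : ℕ) < m then s0 / m else (L - s0) / (n - m)
  let ε : ℝ := 1 / (2 * (n + 1) * n)
  let N : ℕ := ∑ a ∈ A, ∑ i, a i
  have hAsub : A ⊆ Fintype.piFinset fun _ : Fin n => Finset.range (N + 1) := by
    intro a ha
    rw [Fintype.mem_piFinset]
    intro i
    rw [Finset.mem_range]
    have h1 : a i ≤ ∑ i, a i := Finset.single_le_sum (fun _ _ => Nat.zero_le _) (Finset.mem_univ i)
    have h2 : ∑ i, a i ≤ N :=
      Finset.single_le_sum (f := fun a : Fin n → ℕ => ∑ i, a i) (fun _ _ => Nat.zero_le _) ha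
    omega
  calc ∑ a ∈ A, (2 : ℝ) ^ (min ((n + 1) * s0 + (n - m) * L + topSum m a)
        ((n + 1) * (∑ i, (a i : ℝ)) - gap a))
      ≤ ∑ a ∈ A, (2 : ℝ) ^ (n * s0 + ((n - m) + 1) * L) *
          ∏ i : Fin n, (2 : ℝ) ^ (-(ε * |(a i : ℝ) - c i|)) := by
        apply Finset.sum_le_sum
        intro a ha
        have h1 := point_ineq n m hn hm s0 L a (hA a ha).1 (hA a ha).2
        rw [← Real.rpow_sum_of_pos (by norm_num), ← Real.rpow_add (by norm_num)]
        apply Real.rpow_le_rpow_of_exponent_le (by norm_num)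
        refine h1.trans (le_of_eq ?_)
        rw [Finset.sum_neg_distrib]
        rfl
    _ ≤ ∑ a ∈ Fintype.piFinset fun _ : Fin n => Finset.range (N + 1),
          (2 : ℝ) ^ (n * s0 + ((n - m) + 1) * L) *
          ∏ i : Fin n, (2 : ℝ) ^ (-(ε * |(a i : ℝ) - c i|)) := by
        apply Finset.sum_le_sum_of_subset_of_nonneg hAsub
        intro a _ _
        positivity
    _ = (2 : ℝ) ^ (n * s0 + ((n - m) + 1) * L) *
          ∏ i : Fin n, ∑ x ∈ Finset.range (N + 1), (2 : ℝ) ^ (-(ε * |(x : ℝ) - c i|)) := by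
        rw [← Finset.mul_sum, Finset.prod_univ_sum]
    _ ≤ (2 : ℝ) ^ (n * s0 + ((n - m) + 1) * L) * C ^ n := by
        apply mul_le_mul_of_nonneg_left _ (by positivity)
        calc ∏ i : Fin n, ∑ x ∈ Finset.range (N + 1), (2 : ℝ) ^ (-(ε * |(x : ℝ) - c i|))
            ≤ ∏ _i : Fin n, C := by
              apply Finset.prod_le_prod
              · intro i _
                apply Finset.sum_nonneg
                intro x _
                positivity
              · intro i _
                exact hsum (c i) _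
          _ = C ^ n := by simp
    _ = C ^ n * (2 : ℝ) ^ (n * s0 + ((n - m) + 1) * L) := by ring

end Pool.Agent.R452.SZ
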