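import Pool.Agent.R452.SZ.Alpha
import Pool.Agent.R452.SZ.Beta
import Pool.Agent.R452.SZ.Sum

set_option autoImplicit false
set_option linter.unusedSectionVars false

/-! The main count. -/

namespace Pool.Agent.R452.SZ

open MvPolynomial Module Algebra Filter

variable {n : ℕ}

attribute [local instance] MvPolynomial.gradedAlgebra

/-- lower growth against a limit -/
lemma LowGrow.le_of_tendsto {f : ℕ → ℕ} {r : ℕ} {c δ : ℝ} (h : LowGrow f r c)
    (hδ : Tendsto (fun t : ℕ => (Nat.factorial r : ℝ) * (f t : ℝ) / (t : ℝ) ^ r) atTop (nhds δ)) :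
    c ≤ δ := by
  apply le_of_forall_lt
  intro c' hc'
  obtain ⟨c'', h1, h2⟩ := exists_between hc'
  refine lt_of_lt_of_le h1 ?_
  apply ge_of_tendsto hδ
  filter_upwards [h c'' h2, eventually_gt_atTop 0] with t ht ht0
  have : (0 : ℝ) < (t : ℝ) ^ r := by positivity
  rw [le_div_iff₀ this]
  exact ht

/-- the dyadic profile of a vector -/
lemma exists_profile (P : Fin (n + 1) → ℤ) (hP : P ≠ 0) : ∃ a : Fin n → ℕ, Monotone a ∧
    (∃ l : Fin n → (Fin (n + 1) → ℤ), LinearIndependent ℚ (fun i => toQ (l i)) ∧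
      (∀ i, l i ⬝ᵥ P = 0) ∧ ∀ i, nm (l i) ≤ 2 ^ a i) ∧
    2 ^ (∑ i, a i) ≤ 8 ^ n * (n + 1) * nm P := by
  obtain ⟨l, h1, h2, h3, h4⟩ := gamma P hP
  have hpos : ∀ i, 0 < nm (l i) := by
    intro i
    apply nm_pos
    intro h
    apply h1.ne_zero i
    rw [h, toQ_zero]
  refine ⟨fun i => Nat.clog 2 (nm (l i)), ?_, ⟨l, h1, h2, fun i => Nat.le_pow_clog (by norm_num) _⟩,
    ?_⟩
  · intro i j hij
    exact Nat.clog_mono_right 2 (h3 hij)
  · rw [← Finset.prod_pow_eq_pow_sum]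
    calc ∏ i, 2 ^ Nat.clog 2 (nm (l i)) ≤ ∏ i, (2 * nm (l i)) := by
          apply Finset.prod_le_prod'
          intro i _
          rcases Nat.lt_or_ge 1 (nm (l i)) with h | h
          · have h5 := Nat.pow_pred_clog_lt_self (b := 2) (by norm_num) h
            have h6 : Nat.clog 2 (nm (l i)) ≠ 0 := by
              have := Nat.clog_pos (b := 2) (by norm_num) h
              omega
            have h7 : 2 ^ Nat.clog 2 (nm (l i)) = 2 * 2 ^ (Nat.clog 2 (nm (l i))).pred := by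
              rw [← pow_succ']
              congr 1
              exact (Nat.succ_pred h6).symm
            rw [h7]
            omega
          · have h5 : nm (l i) = 1 := le_antisymm h (hpos i)
            rw [h5]
            simp
      _ = 2 ^ n * ∏ i, nm (l i) := by
          rw [Finset.prod_mul_distrib]
          simp
      _ ≤ 2 ^ n * (4 ^ n * (n + 1) * nm P) := Nat.mul_le_mul_left _ h4
      _ = 8 ^ n * (n + 1) * nm P := by
          have : (8 : ℕ) ^ n = 2 ^ n * 4 ^ n := by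
            rw [← mul_pow]
            norm_num
          rw [this]
          ring

/-- the product of the ratios of a profile -/
lemma ratio_prod (a : Fin n → ℕ) (ha : Monotone a) :
    ((∏ j : Fin n, ∏ i : Fin n, (if i < j then 2 ^ (a j - a i) else 1) : ℕ) : ℝ)
      = (2 : ℝ) ^ gap a := by
  push_cast
  unfold gap
  rw [Real.rpow_sum_of_pos (by norm_num)]
  apply Finset.prod_congr rfl
  intro j _
  rw [Real.rpow_sum_of_pos (by norm_num)]
  apply Finset.prod_congr rfl
  intro i _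
  split_ifs with h
  · rw [← Real.rpow_natCast, Nat.cast_sub (ha h.le)]
  · simp

/-- the product of the last entries of a profile -/
lemma tp_dyadic (a : Fin n → ℕ) (m : ℕ) :
    (tp m (fun i => 2 ^ a i) : ℝ) = (2 : ℝ) ^ topSum m a := by
  unfold tp topSum
  push_cast
  rw [Real.rpow_sum_of_pos (by norm_num)]
  apply Finset.prod_congr rfl
  intro i _
  split_ifs
  · simp
  · rw [Real.rpow_natCast]

theorem core (n k : ℕ) (hn : 1 ≤ n) (hk : k ≤ n) : ∃ c : ℝ, 0 < c ∧
    ∀ (XX : Finset (Ideal (MvPolynomial (Fin (n + 1)) ℚ)))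
      (δ : Ideal (MvPolynomial (Fin (n + 1)) ℚ) → ℝ),
      (∀ p ∈ XX, p.IsPrime ∧ p.IsHomogeneous (homogeneousSubmodule (Fin (n + 1)) ℚ) ∧
        Algebra.trdeg ℚ (MvPolynomial (Fin (n + 1)) ℚ ⧸ p) = ((k + 1 : ℕ) : Cardinal) ∧
        Tendsto (fun t : ℕ => (Nat.factorial k : ℝ) * (hf p t : ℝ) / (t : ℝ) ^ k) atTop
          (nhds (δ p))) →
      ∀ (B : ℕ), 1 ≤ B → ∀ S : Finset (Fin (n + 1) → ℤ),
        (∀ P ∈ S, P ≠ 0 ∧ nm P ≤ B ∧ ∃ p ∈ XX, Van p P) →
        (∀ P ∈ S, ∀ Q ∈ S, (∀ i j, P i * Q j = P j * Q i) → P = Q) →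
        (S.card : ℝ) ≤ c * (∑ p ∈ XX, δ p) ^ ((n : ℝ) / (n + 1)) * (B : ℝ) ^ (k + 1) := by
  classical
  obtain ⟨C, hC, hsum⟩ := profile_sum n (n - k) hn (Nat.sub_le n k)
  set C1 : ℝ := (3 * ((n : ℝ) + 1)) ^ (n * (n + 1)) with hC1
  set C2 : ℝ := (KK n : ℝ) ^ k with hC2
  have hKK : (0 : ℝ) < KK n := by
    unfold KK
    positivity
  refine ⟨(C1 + C2) * (C * (8 ^ n * (n + 1)) ^ (k + 1)), by positivity, ?_⟩
  intro XX δ hX B hB S hS hSp
  have hBR : (1 : ℝ) ≤ B := by exact_mod_cast hB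
  have hB0 : (0 : ℝ) < B := by linarith
  have hδ0 : ∀ p ∈ XX, 0 ≤ δ p := by
    intro p hp
    apply ge_of_tendsto (hX p hp).2.2.2
    filter_upwards with t
    positivity
  have hd0 : 0 ≤ ∑ p ∈ XX, δ p := Finset.sum_nonneg hδ0
  rcases S.eq_empty_or_nonempty with hSe | hSne
  · rw [hSe]
    simp only [Finset.card_empty, Nat.cast_zero]
    positivity
  set d : ℝ := ∑ p ∈ XX, δ p with hd
  -- profiles
  have hprof : ∀ P : Fin (n + 1) → ℤ, ∃ a : Fin n → ℕ, P ∈ S → (Monotone a ∧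
      (∃ l : Fin n → (Fin (n + 1) → ℤ), LinearIndependent ℚ (fun i => toQ (l i)) ∧
        (∀ i, l i ⬝ᵥ P = 0) ∧ ∀ i, nm (l i) ≤ 2 ^ a i) ∧
      2 ^ (∑ i, a i) ≤ 8 ^ n * (n + 1) * nm P) := by
    intro P
    by_cases hP : P ∈ S
    · obtain ⟨a, ha⟩ := exists_profile P (hS P hP).1
      exact ⟨a, fun _ => ha⟩
    · exact ⟨0, fun h => absurd h hP⟩
  choose a ha using hprof
  -- the first bound
  have hXbd : ∀ b : Fin n → ℕ, Monotone b → ((S.filter fun P => a P = b).card : ℝ)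
      ≤ C2 * (d * (B : ℝ) ^ k * (2 : ℝ) ^ topSum (n - k) b) := by
    intro b hb
    have hcov : (S.filter fun P => a P = b).card
        ≤ ∑ p ∈ XX, ((S.filter fun P => a P = b).filter fun P => Van p P).card := by
      refine (Finset.card_le_card ?_).trans Finset.card_biUnion_le
      intro P hP
      rw [Finset.mem_biUnion]
      obtain ⟨p, hp, hpP⟩ := (hS P (Finset.mem_filter.1 hP).1).2.2
      exact ⟨p, hp, Finset.mem_filter.2 ⟨hP, hpP⟩⟩
    have hone : ∀ p ∈ XX, (((S.filter fun P => a P = b).filter fun P => Van p P).card : ℝ)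
        ≤ δ p * (C2 * (B : ℝ) ^ k * (2 : ℝ) ^ topSum (n - k) b) := by
      intro p hp
      obtain ⟨h1, h2, h3, h4⟩ := hX p hp
      have h5 := alpha (fun i => 2 ^ b i) (fun i => Nat.one_le_two_pow)
        (fun i j hij => Nat.pow_le_pow_right (by norm_num) (hb hij)) B hB k hk p h1 h2 h3
        ((S.filter fun P => a P = b).filter fun P => Van p P) (by
          intro P hP
          have h6 := Finset.mem_filter.1 hP
          have h7 := Finset.mem_filter.1 h6.1
          obtain ⟨h8, h9, -⟩ := hS P h7.1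
          obtain ⟨-, h10, -⟩ := ha P h7.1
          rw [h7.2] at h10
          exact ⟨h8, h9, h6.2, h10⟩) (by
          intro P hP Q hQ
          exact hSp P (Finset.mem_filter.1 (Finset.mem_filter.1 hP).1).1 Q
            (Finset.mem_filter.1 (Finset.mem_filter.1 hQ).1).1)
      have h6 := h5.le_of_tendsto h4
      rw [tp_dyadic] at h6
      have h7 : (0 : ℝ) < (KK n : ℝ) ^ k * (B : ℝ) ^ k * (2 : ℝ) ^ topSum (n - k) b := by
        positivity
      rw [div_le_iff₀ h7] at h6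
      exact h6
    calc ((S.filter fun P => a P = b).card : ℝ)
        ≤ ∑ p ∈ XX, (((S.filter fun P => a P = b).filter fun P => Van p P).card : ℝ) := by
          exact_mod_cast hcov
      _ ≤ ∑ p ∈ XX, δ p * (C2 * (B : ℝ) ^ k * (2 : ℝ) ^ topSum (n - k) b) :=
          Finset.sum_le_sum hone
      _ = C2 * (d * (B : ℝ) ^ k * (2 : ℝ) ^ topSum (n - k) b) := by
          rw [← Finset.sum_mul, hd]
          ring
  have hdpos : 0 < d := by
    rcases hd0.lt_or_eq with h | h
    · exact h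
    · exfalso
      obtain ⟨P, hP⟩ := hSne
      have h1 := hXbd (a P) (ha P hP).1
      rw [← h, zero_mul, zero_mul, mul_zero] at h1
      have h2 : P ∈ S.filter fun Q => a Q = a P := Finset.mem_filter.2 ⟨hP, rfl⟩
      have h3 : 0 < (S.filter fun Q => a Q = a P).card := Finset.card_pos.2 ⟨P, h2⟩
      have h4 : (0 : ℝ) < (S.filter fun Q => a Q = a P).card := by exact_mod_cast h3
      linarith
  -- the second bound
  have hYbd : ∀ b : Fin n → ℕ, Monotone b → ((S.filter fun P => a P = b).card : ℝ)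
      ≤ C1 * (2 : ℝ) ^ ((n + 1) * (∑ i, (b i : ℝ)) - gap b) := by
    intro b hb
    have h1 := beta b (S.filter fun P => a P = b) (fun P hP => (hS P (Finset.mem_filter.1 hP).1).1)
      (fun P hP Q hQ => hSp P (Finset.mem_filter.1 hP).1 Q (Finset.mem_filter.1 hQ).1) (by
        intro P hP
        have h7 := Finset.mem_filter.1 hP
        obtain ⟨-, h10, -⟩ := ha P h7.1
        rw [h7.2] at h10
        exact h10) hb
    have h2 : ∏ j : Fin n, (2 * ((n + 1) * 2 ^ b j) + 1) ^ (n + 1)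
        ≤ ∏ j : Fin n, ((3 * (n + 1)) * 2 ^ b j) ^ (n + 1) := by
      apply Finset.prod_le_prod'
      intro j _
      apply Nat.pow_le_pow_left
      have h3 : 1 ≤ (n + 1) * 2 ^ b j := Nat.one_le_iff_ne_zero.2 (by positivity)
      have h4 : 3 * (n + 1) * 2 ^ b j = 3 * ((n + 1) * 2 ^ b j) := by ring
      rw [h4]
      omega
    have h3 : ((∏ j : Fin n, ((3 * (n + 1)) * 2 ^ b j) ^ (n + 1) : ℕ) : ℝ)
        = C1 * (2 : ℝ) ^ ((n + 1) * (∑ i, (b i : ℝ))) := by
      push_cast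
      rw [Finset.prod_pow, Finset.prod_mul_distrib, Finset.prod_pow_eq_pow_sum, mul_pow]
      congr 1
      · rw [Finset.prod_const, Finset.card_univ, Fintype.card_fin, hC1, ← pow_mul]
      · rw [← pow_mul, ← Real.rpow_natCast]
        congr 1
        push_cast
        ring
    have h4 : ((S.filter fun P => a P = b).card : ℝ) * (2 : ℝ) ^ gap b
        ≤ C1 * (2 : ℝ) ^ ((n + 1) * (∑ i, (b i : ℝ))) := by
      rw [← ratio_prod b hb, ← h3]
      exact_mod_cast h1.trans h2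
    rw [Real.rpow_sub (by norm_num), ← mul_div_assoc, le_div_iff₀ (by positivity)]
    exact h4
  -- summation
  set s0 : ℝ := Real.logb 2 d / (n + 1) with hs0
  set L : ℝ := Real.logb 2 (8 ^ n * (n + 1) * B) with hL
  have hn1 : (0 : ℝ) < (n : ℝ) + 1 := by positivity
  have h2L : (2 : ℝ) ^ L = 8 ^ n * (n + 1) * B := Real.rpow_logb (by norm_num) (by norm_num)
    (by positivity)
  have h2s : (2 : ℝ) ^ ((n + 1) * s0) = d := by
    rw [hs0, mul_div_cancel₀ _ hn1.ne']
    exact Real.rpow_logb (by norm_num) (by norm_num) hdpos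
  have hcast : ((n - k : ℕ) : ℝ) = (n : ℝ) - k := by rw [Nat.cast_sub hk]
  have hnk : (n : ℝ) - ((n - k : ℕ) : ℝ) = k := by rw [hcast]; ring
  let A : Finset (Fin n → ℕ) := S.image a
  have hA : ∀ b ∈ A, Monotone b ∧ ∑ i, (b i : ℝ) ≤ L := by
    intro b hb
    obtain ⟨P, hP, rfl⟩ := Finset.mem_image.1 hb
    refine ⟨(ha P hP).1, ?_⟩
    have h1 := (ha P hP).2.2
    have h2 : ((2 ^ (∑ i, a P i) : ℕ) : ℝ) ≤ 8 ^ n * (n + 1) * B := by
      have h3 : 8 ^ n * (n + 1) * nm P ≤ 8 ^ n * (n + 1) * B := Nat.mul_le_mul_left _ (hS P hP).2.1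
      exact_mod_cast h1.trans h3
    rw [hL, Real.le_logb_iff_rpow_le (by norm_num) (by positivity)]
    push_cast at h2
    rw [← Real.rpow_natCast] at h2
    push_cast at h2
    exact h2
  have hpoint : ∀ b ∈ A, ((S.filter fun P => a P = b).card : ℝ) ≤ (C1 + C2) *
      (2 : ℝ) ^ (min ((n + 1) * s0 + (n - ((n - k : ℕ) : ℝ)) * L + topSum (n - k) b)
        ((n + 1) * (∑ i, (b i : ℝ)) - gap b)) := by
    intro b hb
    obtain ⟨hb1, hb2⟩ := hA b hb
    have e1 := hXbd b hb1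
    have e2 := hYbd b hb1
    have hC10 : 0 < C1 := by positivity
    have hC20 : 0 < C2 := by positivity
    have e3 : d * (B : ℝ) ^ k * (2 : ℝ) ^ topSum (n - k) b
        ≤ (2 : ℝ) ^ ((n + 1) * s0 + (n - ((n - k : ℕ) : ℝ)) * L + topSum (n - k) b) := by
      rw [hnk, Real.rpow_add (by norm_num), Real.rpow_add (by norm_num), h2s]
      have e4 : (B : ℝ) ^ k ≤ (2 : ℝ) ^ ((k : ℝ) * L) := by
        rw [mul_comm, Real.rpow_mul (by norm_num), h2L, Real.rpow_natCast]
        apply pow_le_pow_left₀ hB0.le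
        have e5 : (1 : ℝ) ≤ 8 ^ n := one_le_pow₀ (by norm_num)
        have e6 : (1 : ℝ) ≤ (n : ℝ) + 1 := by linarith [Nat.cast_nonneg (α := ℝ) n]
        have e7 : (1 : ℝ) ≤ 8 ^ n * ((n : ℝ) + 1) := by nlinarith
        nlinarith
      gcongr
    rcases le_total ((n + 1) * s0 + (n - ((n - k : ℕ) : ℝ)) * L + topSum (n - k) b)
      ((n + 1) * (∑ i, (b i : ℝ)) - gap b) with h | h
    · rw [min_eq_left h]
      calc ((S.filter fun P => a P = b).card : ℝ)
          ≤ C2 * (d * (B : ℝ) ^ k * (2 : ℝ) ^ topSum (n - k) b) := e1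
        _ ≤ C2 * (2 : ℝ) ^ ((n + 1) * s0 + (n - ((n - k : ℕ) : ℝ)) * L + topSum (n - k) b) := by
            gcongr
        _ ≤ (C1 + C2) *
            (2 : ℝ) ^ ((n + 1) * s0 + (n - ((n - k : ℕ) : ℝ)) * L + topSum (n - k) b) := by
            gcongr
            linarith
    · rw [min_eq_right h]
      calc ((S.filter fun P => a P = b).card : ℝ)
          ≤ C1 * (2 : ℝ) ^ ((n + 1) * (∑ i, (b i : ℝ)) - gap b) := e2
        _ ≤ (C1 + C2) * (2 : ℝ) ^ ((n + 1) * (∑ i, (b i : ℝ)) - gap b) := by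
            gcongr
            linarith
  have htot : (S.card : ℝ) = ∑ b ∈ A, ((S.filter fun P => a P = b).card : ℝ) := by
    have := Finset.card_eq_sum_card_image a S
    exact_mod_cast this
  have hfinal := hsum s0 L A hA
  calc (S.card : ℝ) = ∑ b ∈ A, ((S.filter fun P => a P = b).card : ℝ) := htot
    _ ≤ ∑ b ∈ A, (C1 + C2) *
        (2 : ℝ) ^ (min ((n + 1) * s0 + (n - ((n - k : ℕ) : ℝ)) * L + topSum (n - k) b)
        ((n + 1) * (∑ i, (b i : ℝ)) - gap b)) := Finset.sum_le_sum hpoint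
    _ = (C1 + C2) * ∑ b ∈ A,
        (2 : ℝ) ^ (min ((n + 1) * s0 + (n - ((n - k : ℕ) : ℝ)) * L + topSum (n - k) b)
        ((n + 1) * (∑ i, (b i : ℝ)) - gap b)) := by rw [Finset.mul_sum]
    _ ≤ (C1 + C2) * (C * (2 : ℝ) ^ (n * s0 + ((n - ((n - k : ℕ) : ℝ)) + 1) * L)) := by
        gcongr
    _ = (C1 + C2) * (C * (8 ^ n * (n + 1)) ^ (k + 1)) * d ^ ((n : ℝ) / (n + 1)) *
        (B : ℝ) ^ (k + 1) := by
        have e1 : (2 : ℝ) ^ (n * s0) = d ^ ((n : ℝ) / (n + 1)) := by
          have e2 : (n : ℝ) * s0 = ((n + 1) * s0) * ((n : ℝ) / (n + 1)) := by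
            field_simp
          rw [e2, Real.rpow_mul (by norm_num), h2s]
        have e3 : (2 : ℝ) ^ (((k : ℝ) + 1) * L) = (8 ^ n * (n + 1) * B) ^ (k + 1) := by
          rw [mul_comm, Real.rpow_mul (by norm_num), h2L]
          have : ((k : ℝ) + 1) = ((k + 1 : ℕ) : ℝ) := by push_cast; ring
          rw [this, Real.rpow_natCast]
        rw [hnk, Real.rpow_add (by norm_num), e1, e3, mul_pow]
        ring

end Pool.Agent.R452.SZ
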