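import Pool.Agent.R452.SZ.Vec

set_option autoImplicit false
set_option linter.unusedSectionVars false

/-! Successive minima of the lattice orthogonal to an integer vector, and the upper bound for
their product. -/

namespace Pool.Agent.R452.SZ

open Finset Module

variable {n : ℕ}

/-- the linear functional `x ↦ x ⬝ w` -/
def dotL (w : Fin (n + 1) → ℚ) : (Fin (n + 1) → ℚ) →ₗ[ℚ] ℚ where
  toFun x := x ⬝ᵥ w
  map_add' x y := add_dotProduct x y w
  map_smul' c x := by simp

/-- the rational hyperplane orthogonal to `P` -/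
def perp (P : Fin (n + 1) → ℤ) : Submodule ℚ (Fin (n + 1) → ℚ) := LinearMap.ker (dotL (toQ P))

lemma mem_perp {P : Fin (n + 1) → ℤ} {x : Fin (n + 1) → ℚ} : x ∈ perp P ↔ x ⬝ᵥ toQ P = 0 :=
  LinearMap.mem_ker

lemma toQ_mem_perp {P v : Fin (n + 1) → ℤ} : toQ v ∈ perp P ↔ v ⬝ᵥ P = 0 := by
  rw [mem_perp, dot_toQ]
  simp

lemma finrank_perp {P : Fin (n + 1) → ℤ} (hP : P ≠ 0) : finrank ℚ (perp P) = n := by
  have h1 := LinearMap.finrank_range_add_finrank_ker (dotL (toQ P))
  have h2 : LinearMap.range (dotL (toQ P)) = ⊤ := by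
    rw [LinearMap.range_eq_top]
    apply LinearMap.surjective
    intro h
    have h3 : dotL (toQ P) (toQ P) = 0 := by rw [h]; rfl
    have h4 : toQ P ⬝ᵥ toQ P = 0 := h3
    exact toQ_ne_zero hP (dotProduct_self_eq_zero.1 h4)
  rw [h2] at h1
  simp only [finrank_top, finrank_self, finrank_fintype_fun_eq_card, Fintype.card_fin] at h1
  unfold perp
  omega

/-- integral points outside a small subspace -/
lemma exists_int_notMem {P : Fin (n + 1) → ℤ} (hP : P ≠ 0) (S : Submodule ℚ (Fin (n + 1) → ℚ))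
    (hS : finrank ℚ S < n) : ∃ v : Fin (n + 1) → ℤ, v ⬝ᵥ P = 0 ∧ toQ v ∉ S := by
  have h1 : ¬ perp P ≤ S := by
    intro h
    have := Submodule.finrank_mono h
    rw [finrank_perp hP] at this
    omega
  obtain ⟨x, hx, hxS⟩ := SetLike.not_le_iff_exists.1 h1
  obtain ⟨d, hd, v, hv⟩ := exists_int_multiple x
  refine ⟨v, ?_, ?_⟩
  · rw [← toQ_mem_perp, hv]
    exact (perp P).smul_mem _ hx
  · rw [hv]
    intro h
    apply hxS
    have h2 := S.smul_mem ((d : ℚ)⁻¹) h
    rwa [smul_smul, inv_mul_cancel₀ (by exact_mod_cast hd), one_smul] at h2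

lemma exists_argmin (p : (Fin (n + 1) → ℤ) → Prop) (h : ∃ v, p v) :
    ∃ v, p v ∧ ∀ w, p w → nm v ≤ nm w := by
  classical
  have h' : ∃ k, ∃ v, p v ∧ nm v = k := by
    obtain ⟨v, hv⟩ := h
    exact ⟨nm v, v, hv, rfl⟩
  obtain ⟨v, hv, hk⟩ := Nat.find_spec h'
  refine ⟨v, hv, fun w hw => ?_⟩
  rw [hk]
  exact Nat.find_min' h' ⟨w, hw, rfl⟩

/-- successive minima -/
lemma minima {P : Fin (n + 1) → ℤ} (hP : P ≠ 0) :
    ∃ (l : ℕ → (Fin (n + 1) → ℤ)) (U : ℕ → Submodule ℚ (Fin (n + 1) → ℚ)),
      U 0 = ⊥ ∧ (∀ j, U (j + 1) = U j ⊔ Submodule.span ℚ {toQ (l j)}) ∧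
      (∀ j, j < n → l j ⬝ᵥ P = 0 ∧ toQ (l j) ∉ U j ∧
        ∀ w, w ⬝ᵥ P = 0 → toQ w ∉ U j → nm (l j) ≤ nm w) ∧ U n = perp P := by
  have h1 : ∀ S : Submodule ℚ (Fin (n + 1) → ℚ), ∃ v : Fin (n + 1) → ℤ,
      (finrank ℚ S < n → v ⬝ᵥ P = 0 ∧ toQ v ∉ S ∧ ∀ w, w ⬝ᵥ P = 0 → toQ w ∉ S → nm v ≤ nm w) := by
    intro S
    by_cases hS : finrank ℚ S < n
    · obtain ⟨v, hv, hmin⟩ := exists_argmin (fun v => v ⬝ᵥ P = 0 ∧ toQ v ∉ S)
        (exists_int_notMem hP S hS)
      exact ⟨v, fun _ => ⟨hv.1, hv.2, fun w hw1 hw2 => hmin w ⟨hw1, hw2⟩⟩⟩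
    · exact ⟨0, fun h => absurd h hS⟩
  choose nx hnx using h1
  obtain ⟨U, hU0, hU1⟩ : ∃ U : ℕ → Submodule ℚ (Fin (n + 1) → ℚ), U 0 = ⊥ ∧
      ∀ j, U (j + 1) = U j ⊔ Submodule.span ℚ {toQ (nx (U j))} :=
    ⟨fun j => Nat.rec (motive := fun _ => Submodule ℚ (Fin (n + 1) → ℚ)) ⊥
      (fun _ S => S ⊔ Submodule.span ℚ {toQ (nx S)}) j, rfl, fun j => rfl⟩
  have hrank : ∀ j, j ≤ n → finrank ℚ ↥(U j) = j := by
    intro j
    induction j with
    | zero => intro _; rw [hU0]; exact finrank_bot ℚ _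
    | succ j ih =>
      intro hj
      have h2 := ih (by omega)
      have h3 := (hnx (U j) (by omega)).2.1
      rw [hU1, Submodule.finrank_sup_span_singleton h3, h2]
  have hle : ∀ j, j ≤ n → U j ≤ perp P := by
    intro j
    induction j with
    | zero => intro _; rw [hU0]; exact bot_le
    | succ j ih =>
      intro hj
      have h2 := ih (by omega)
      have h3 := (hnx (U j) (by rw [hrank j (by omega)]; omega)).1
      rw [hU1, sup_le_iff, Submodule.span_singleton_le_iff_mem]
      exact ⟨h2, toQ_mem_perp.2 h3⟩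
  refine ⟨fun j => nx (U j), U, hU0, hU1, ?_, ?_⟩
  · intro j hj
    exact hnx (U j) (by rw [hrank j (by omega)]; omega)
  · apply Submodule.eq_of_le_of_finrank_eq (hle n le_rfl)
    rw [hrank n le_rfl, finrank_perp hP]

/-- splitting off a vector from the integral points of a chain of rational subspaces -/
lemma splitting (U : Submodule ℚ (Fin (n + 1) → ℚ)) (v : Fin (n + 1) → ℤ) (hv : toQ v ∉ U) :
    ∃ e : Fin (n + 1) → ℤ, toQ e ∈ U ⊔ Submodule.span ℚ {toQ v} ∧ toQ e ∉ U ∧
      ∀ x : Fin (n + 1) → ℤ, toQ x ∈ U ⊔ Submodule.span ℚ {toQ v} →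
        ∃ c : ℤ, toQ (x - c • e) ∈ U := by
  obtain ⟨f, hf1, hf2⟩ := Submodule.exists_dual_map_eq_bot_of_notMem hv inferInstance
  obtain ⟨D, hD, w, hw⟩ := exists_int_multiple (fun i : Fin (n + 1) => f (Pi.single i 1))
  have hfU : ∀ x ∈ U, f x = 0 := by
    intro x hx
    have : f x ∈ U.map f := Submodule.mem_map_of_mem hx
    rw [hf2] at this
    simpa using this
  have hfw : ∀ x : Fin (n + 1) → ℤ, ((x ⬝ᵥ w : ℤ) : ℚ) = D * f (toQ x) := by
    intro x
    have h1 : f (toQ x) = ∑ i, toQ x i * f (Pi.single i 1) := by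
      conv_lhs => rw [pi_eq_sum_univ' (toQ x)]
      rw [map_sum]
      apply Finset.sum_congr rfl
      intro i _
      rw [map_smul, smul_eq_mul]
    rw [← dot_toQ, hw, h1]
    simp only [dotProduct, Pi.smul_apply, smul_eq_mul, Finset.mul_sum]
    apply Finset.sum_congr rfl
    intro i _
    ring
  have hker : ∀ x : Fin (n + 1) → ℤ, toQ x ∈ U ⊔ Submodule.span ℚ {toQ v} → x ⬝ᵥ w = 0 →
      toQ x ∈ U := by
    intro x hx h0
    obtain ⟨u, hu, y, hy, hxy⟩ := Submodule.mem_sup.1 hx
    obtain ⟨α, rfl⟩ := Submodule.mem_span_singleton.1 hy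
    have h2 := hfw x
    rw [h0] at h2
    rw [← hxy] at h2
    rw [map_add, hfU u hu, map_smul, smul_eq_mul] at h2
    have hα : α = 0 := by
      have hD' : (D : ℚ) ≠ 0 := by exact_mod_cast hD
      have : (D : ℚ) * (α * f (toQ v)) = 0 := by
        rw [← zero_add (α * f (toQ v)), ← h2]
        simp
      rcases mul_eq_zero.1 this with h | h
      · exact absurd h hD'
      · rcases mul_eq_zero.1 h with h | h
        · exact h
        · exact absurd h hf1
    rw [hα, zero_smul, add_zero] at hxy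
    rw [← hxy]
    exact hu
  have hmemU : ∀ x : Fin (n + 1) → ℤ, toQ x ∈ U → x ⬝ᵥ w = 0 := by
    intro x hx
    have := hfw x
    rw [hfU _ hx, mul_zero] at this
    exact_mod_cast this
  classical
  have hex : ∃ k : ℕ, ∃ x : Fin (n + 1) → ℤ, toQ x ∈ U ⊔ Submodule.span ℚ {toQ v} ∧
      x ⬝ᵥ w ≠ 0 ∧ (x ⬝ᵥ w).natAbs = k := by
    refine ⟨(v ⬝ᵥ w).natAbs, v, ?_, ?_, rfl⟩
    · exact Submodule.mem_sup_right (Submodule.mem_span_singleton_self _)
    · intro h
      exact hv (hker v (Submodule.mem_sup_right (Submodule.mem_span_singleton_self _)) h)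
  obtain ⟨e, he1, he2, he3⟩ := Nat.find_spec hex
  refine ⟨e, he1, fun h => he2 (hmemU e h), fun x hx => ⟨(x ⬝ᵥ w) / (e ⬝ᵥ w), ?_⟩⟩
  have hmem : toQ (x - ((x ⬝ᵥ w) / (e ⬝ᵥ w)) • e) ∈ U ⊔ Submodule.span ℚ {toQ v} := by
    rw [toQ_sub, toQ_smul]
    exact Submodule.sub_mem _ hx (Submodule.smul_mem _ _ he1)
  apply hker _ hmem
  by_contra hne
  have h5 : (x - ((x ⬝ᵥ w) / (e ⬝ᵥ w)) • e) ⬝ᵥ w = (x ⬝ᵥ w) % (e ⬝ᵥ w) := by
    rw [sub_dotProduct, smul_dotProduct, smul_eq_mul, Int.emod_def]
    ring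
  have h6 := Nat.find_min' hex ⟨_, hmem, hne, rfl⟩
  rw [← he3, h5] at h6
  have h7 := Int.emod_lt_abs (x ⬝ᵥ w) he2
  have h8 := Int.emod_nonneg (x ⬝ᵥ w) he2
  rw [Int.abs_eq_natAbs] at h7
  omega

/-- the counting lemma: residues with respect to an adapted basis -/
lemma count_le {P : Fin (n + 1) → ℤ} (l : ℕ → (Fin (n + 1) → ℤ))
    (U : ℕ → Submodule ℚ (Fin (n + 1) → ℚ)) (hU0 : U 0 = ⊥)
    (hU1 : ∀ j, U (j + 1) = U j ⊔ Submodule.span ℚ {toQ (l j)})
    (hl : ∀ j, j < n → l j ⬝ᵥ P = 0 ∧ toQ (l j) ∉ U j ∧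
        ∀ w, w ⬝ᵥ P = 0 → toQ w ∉ U j → nm (l j) ≤ nm w) (hUn : U n = perp P)
    (D : ℕ) (q : ℕ → ℕ) (hq0 : ∀ i, 0 < q i) (hq : ∀ i j, i ≤ j → q j ∣ q i)
    (hqD : ∀ i, i < n → D < q i * nm (l i))
    (S : Finset (Fin (n + 1) → ℤ)) (hS : ∀ x ∈ S, x ⬝ᵥ P = 0)
    (hSD : ∀ x ∈ S, ∀ y ∈ S, nm (x - y) ≤ D) : S.card ≤ ∏ i : Fin n, q i := by
  classical
  have he : ∀ j, ∃ e : Fin (n + 1) → ℤ, j < n → (toQ e ∈ U (j + 1) ∧ toQ e ∉ U j ∧
      ∀ x : Fin (n + 1) → ℤ, toQ x ∈ U (j + 1) → ∃ c : ℤ, toQ (x - c • e) ∈ U j) := by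
    intro j
    by_cases hj : j < n
    · obtain ⟨e, h1, h2, h3⟩ := splitting (U j) (l j) (hl j hj).2.1
      rw [← hU1] at h1 h3
      exact ⟨e, fun _ => ⟨h1, h2, h3⟩⟩
    · exact ⟨0, fun h => absurd h hj⟩
  choose e he using he
  have hmono : ∀ i j, i ≤ j → U i ≤ U j := by
    intro i j hij
    induction hij with
    | refl => exact le_rfl
    | step _ ih => exact ih.trans (by rw [Nat.succ_eq_add_one, hU1]; exact le_sup_left)
  have hrep : ∀ j, j ≤ n → ∀ x : Fin (n + 1) → ℤ, toQ x ∈ U j →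
      ∃ c : ℕ → ℤ, x = ∑ i ∈ range j, c i • e i := by
    intro j
    induction j with
    | zero =>
      intro _ x hx
      rw [hU0] at hx
      refine ⟨fun _ => 0, ?_⟩
      simp only [range_zero, sum_empty]
      apply toQ_inj
      rw [toQ_zero]
      simpa using hx
    | succ j ih =>
      intro hj x hx
      obtain ⟨c, hc⟩ := (he j (by omega)).2.2 x hx
      obtain ⟨c', hc'⟩ := ih (by omega) _ hc
      refine ⟨fun i => if i = j then c else c' i, ?_⟩
      show x = ∑ i ∈ range (j + 1), (if i = j then c else c' i) • e i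
      rw [Finset.sum_range_succ, if_pos rfl]
      have : ∑ i ∈ range j, (if i = j then c else c' i) • e i = ∑ i ∈ range j, c' i • e i := by
        apply Finset.sum_congr rfl
        intro i hi
        rw [if_neg (by have := Finset.mem_range.1 hi; omega)]
      rw [this, ← hc']
      abel
  have hsep : ∀ j, j ≤ n → ∀ d : ℕ → ℤ, (∀ i, i < j → (q i : ℤ) ∣ d i) →
      ∑ i ∈ range j, d i • e i ≠ 0 → D < nm (∑ i ∈ range j, d i • e i) := by
    intro j
    induction j with
    | zero => intro _ d _ h; simp at h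
    | succ j ih =>
      intro hj d hd hne
      by_cases hdj : d j = 0
      · rw [Finset.sum_range_succ, hdj, zero_smul, add_zero] at hne ⊢
        exact ih (by omega) d (fun i hi => hd i (by omega)) hne
      · have hdiv : ∀ i, i < j + 1 → (q j : ℤ) ∣ d i := fun i hi =>
          (Int.natCast_dvd_natCast.2 (hq i j (by omega))).trans (hd i hi)
        have hdiv' : ∀ i, ∃ c : ℤ, i < j + 1 → d i = q j * c := by
          intro i
          by_cases hi : i < j + 1
          · obtain ⟨c, hc⟩ := hdiv i hi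
            exact ⟨c, fun _ => hc⟩
          · exact ⟨0, fun h => absurd h hi⟩
        choose c hc using hdiv'
        have hz : ∑ i ∈ range (j + 1), d i • e i = (q j : ℤ) • ∑ i ∈ range (j + 1), c i • e i := by
          rw [Finset.smul_sum]
          apply Finset.sum_congr rfl
          intro i hi
          rw [hc i (Finset.mem_range.1 hi), mul_smul]
        rw [hz, nm_smul, Int.natAbs_natCast]
        refine lt_of_lt_of_le (hqD j (by omega)) (Nat.mul_le_mul_left _ ?_)
        apply (hl j (by omega)).2.2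
        · rw [← toQ_mem_perp, ← hUn, toQ_sum]
          apply Submodule.sum_mem
          intro i hi
          have hi' := Finset.mem_range.1 hi
          rw [toQ_smul]
          apply Submodule.smul_mem
          exact hmono (i + 1) n (by omega) (he i (by omega)).1
        · intro hmem
          rw [Finset.sum_range_succ, toQ_add, toQ_sum] at hmem
          have h1 : ∑ i ∈ range j, toQ (c i • e i) ∈ U j := by
            apply Submodule.sum_mem
            intro i hi
            have hi' := Finset.mem_range.1 hi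
            rw [toQ_smul]
            apply Submodule.smul_mem
            exact hmono (i + 1) j (by omega) (he i (by omega)).1
          have h2 : toQ (c j • e j) ∈ U j := (Submodule.add_mem_iff_right _ h1).1 hmem
          rw [toQ_smul] at h2
          have hcj : (c j : ℚ) ≠ 0 := by
            intro h
            apply hdj
            have h' : c j = 0 := by exact_mod_cast h
            rw [hc j (by omega), h', mul_zero]
          exact (he j (by omega)).2.1 ((Submodule.smul_mem_iff _ hcj).1 h2)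
  have hrepn : ∀ x : Fin (n + 1) → ℤ, ∃ c : ℕ → ℤ, x ⬝ᵥ P = 0 → x = ∑ i ∈ range n, c i • e i := by
    intro x
    by_cases hx : x ⬝ᵥ P = 0
    · obtain ⟨c, hc⟩ := hrep n le_rfl x (by rw [hUn]; exact toQ_mem_perp.2 hx)
      exact ⟨c, fun _ => hc⟩
    · exact ⟨fun _ => 0, fun h => absurd h hx⟩
  choose co hco using hrepn
  have hcard : (Fintype.piFinset fun i : Fin n => Finset.Ico (0 : ℤ) (q i)).card
      = ∏ i : Fin n, q i := by
    rw [Fintype.card_piFinset]
    simp
  rw [← hcard]
  apply Finset.card_le_card_of_injOn (fun x => fun i : Fin n => co x i % (q i : ℤ))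
  · intro x _
    simp only [Finset.mem_coe, Fintype.mem_piFinset, Finset.mem_Ico]
    intro i
    have : (q i : ℤ) ≠ 0 := by have := hq0 i; omega
    refine ⟨Int.emod_nonneg _ this, ?_⟩
    apply Int.emod_lt_of_pos
    have := hq0 i
    omega
  · intro x hx y hy hxy
    by_contra hne
    have hx' := hco x (hS x hx)
    have hy' := hco y (hS y hy)
    have hsub : x - y = ∑ i ∈ range n, (co x i - co y i) • e i := by
      conv_lhs => rw [hx', hy']
      rw [← Finset.sum_sub_distrib]
      apply Finset.sum_congr rfl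
      intro i _
      rw [sub_smul]
    have h1 := hsep n le_rfl (fun i => co x i - co y i) ?_ ?_
    · rw [← hsub] at h1
      have := hSD x hx y hy
      omega
    · intro i hi
      have h2 := congrFun hxy ⟨i, hi⟩
      simp only at h2
      exact Int.ModEq.dvd h2.symm
    · rw [← hsub]
      exact sub_ne_zero.2 hne

/-- upper bound for the product of the successive minima -/
theorem gamma (P : Fin (n + 1) → ℤ) (hP : P ≠ 0) :
    ∃ l : Fin n → (Fin (n + 1) → ℤ), LinearIndependent ℚ (fun i => toQ (l i)) ∧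
      (∀ i, l i ⬝ᵥ P = 0) ∧ Monotone (fun i => nm (l i)) ∧
      ∏ i, nm (l i) ≤ 4 ^ n * (n + 1) * nm P := by
  classical
  obtain ⟨l, U, hU0, hU1, hl, hUn⟩ := minima hP
  have hmonoU : ∀ i j, i ≤ j → U i ≤ U j := by
    intro i j hij
    induction hij with
    | refl => exact le_rfl
    | step _ ih => exact ih.trans (by rw [Nat.succ_eq_add_one, hU1]; exact le_sup_left)
  have hspan : ∀ j, j ≤ n → LinearIndependent ℚ (fun i : Fin j => toQ (l i)) ∧
      Submodule.span ℚ (Set.range (fun i : Fin j => toQ (l i))) = U j := by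
    intro j
    induction j with
    | zero =>
      intro _
      refine ⟨linearIndependent_empty_type, ?_⟩
      rw [hU0, Set.range_eq_empty, Submodule.span_empty]
    | succ j ih =>
      intro hj
      obtain ⟨h1, h2⟩ := ih (by omega)
      have h3 : (fun i : Fin (j + 1) => toQ (l i))
          = Fin.snoc (fun i : Fin j => toQ (l i)) (toQ (l j)) := by
        funext i
        refine Fin.lastCases ?_ (fun i => ?_) i
        · simp
        · simp
      constructor
      · rw [h3, linearIndependent_finSnoc, h2]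
        exact ⟨h1, (hl j (by omega)).2.1⟩
      · have h4 : Set.range (fun i : Fin (j + 1) => toQ (l i))
            = Set.range (fun i : Fin j => toQ (l i)) ∪ {toQ (l j)} := by
          ext x
          simp only [Set.mem_range, Set.mem_union, Set.mem_singleton_iff]
          constructor
          · rintro ⟨i, rfl⟩
            refine Fin.lastCases ?_ (fun i => ?_) i
            · right; simp
            · left; exact ⟨i, by simp⟩
          · rintro (⟨i, rfl⟩ | rfl)
            · exact ⟨i.castSucc, by simp⟩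
            · exact ⟨Fin.last j, by simp⟩
        rw [h4, Submodule.span_union, h2, hU1]
  have hpos : ∀ i, i < n → 0 < nm (l i) := by
    intro i hi
    apply nm_pos
    intro h0
    apply (hl i hi).2.1
    rw [h0, toQ_zero]
    exact Submodule.zero_mem _
  have hmono : ∀ i j, i ≤ j → j < n → nm (l i) ≤ nm (l j) := by
    intro i j hij hj
    apply (hl i (by omega)).2.2 _ (hl j hj).1
    intro h
    exact (hl j hj).2.1 (hmonoU i j hij h)
  refine ⟨fun i => l i, (hspan n le_rfl).1, fun i => (hl i i.2).1,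
    fun i j hij => hmono i j hij j.2, ?_⟩
  -- choose the radius
  let R : ℕ := 1 + ∑ i ∈ range n, nm (l i)
  have hR1 : 1 ≤ R := by simp [R]
  have hRl : ∀ i, i < n → nm (l i) ≤ R := by
    intro i hi
    have := Finset.single_le_sum (f := fun i => nm (l i)) (fun j _ => Nat.zero_le _)
      (Finset.mem_range.2 hi)
    simp only [R]
    omega
  let D : ℕ := 4 * R
  let rr : ℕ → ℕ := fun i => if i < n then nm (l i) else R
  have hrr : ∀ i, 0 < rr i ∧ rr i ≤ R := by
    intro i
    simp only [rr]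
    split_ifs with h
    · exact ⟨hpos i h, hRl i h⟩
    · exact ⟨hR1, le_rfl⟩
  have hrrm : ∀ i j, i ≤ j → rr i ≤ rr j := by
    intro i j hij
    by_cases hj : j < n
    · simp only [rr, if_pos hj, if_pos (lt_of_le_of_lt hij hj)]
      exact hmono i j hij hj
    · simp only [rr, if_neg hj]
      exact (hrr i).2
  let q : ℕ → ℕ := fun i => 2 ^ (Nat.log 2 (D / rr i) + 1)
  have hq0 : ∀ i, 0 < q i := fun i => by positivity
  have hqd : ∀ i j, i ≤ j → q j ∣ q i := by
    intro i j hij
    apply pow_dvd_pow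
    have h1 : D / rr j ≤ D / rr i := Nat.div_le_div_left (hrrm i j hij) (hrr i).1
    have := Nat.log_mono_right (b := 2) h1
    omega
  have hqD : ∀ i, D < q i * rr i := by
    intro i
    have h1 : D / rr i < q i := Nat.lt_pow_succ_log_self (by norm_num) _
    exact (Nat.div_lt_iff_lt_mul (hrr i).1).1 h1
  have hqD2 : ∀ i, q i * rr i ≤ 2 * D := by
    intro i
    have h0 : D / rr i ≠ 0 := by
      have : 1 ≤ D / rr i := by
        rw [Nat.le_div_iff_mul_le (hrr i).1]
        have := (hrr i).2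
        simp only [D]
        omega
      omega
    have h1 : 2 ^ Nat.log 2 (D / rr i) ≤ D / rr i := Nat.pow_log_le_self 2 h0
    have h2 : q i = 2 * 2 ^ Nat.log 2 (D / rr i) := by simp only [q]; ring
    have h3 : (D / rr i) * rr i ≤ D := Nat.div_mul_le_self _ _
    calc q i * rr i = 2 * (2 ^ Nat.log 2 (D / rr i) * rr i) := by rw [h2]; ring
      _ ≤ 2 * ((D / rr i) * rr i) := by gcongr
      _ ≤ 2 * D := by omega
  -- points of the box in one fibre
  have hfib : ∀ t : ℤ, ((box (Fin (n + 1)) R).filter fun v => v ⬝ᵥ P = t).card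
      ≤ ∏ i : Fin n, q i := by
    intro t
    rcases ((box (Fin (n + 1)) R).filter fun v => v ⬝ᵥ P = t).eq_empty_or_nonempty with h | h
    · rw [h]; simp
    · obtain ⟨v0, hv0⟩ := h
      rw [Finset.mem_filter] at hv0
      have hinj : Function.Injective fun v : Fin (n + 1) → ℤ => v - v0 := sub_left_injective
      rw [← Finset.card_image_of_injective _ hinj]
      apply count_le l U hU0 hU1 hl hUn D q hq0 hqd
      · intro i hi
        have := hqD i
        simp only [rr, if_pos hi] at this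
        exact this
      · intro x hx
        rw [Finset.mem_image] at hx
        obtain ⟨v, hv, rfl⟩ := hx
        rw [Finset.mem_filter] at hv
        rw [sub_dotProduct, hv.2, hv0.2, sub_self]
      · intro x hx y hy
        rw [Finset.mem_image] at hx hy
        obtain ⟨v, hv, rfl⟩ := hx
        obtain ⟨w, hw, rfl⟩ := hy
        rw [Finset.mem_filter, mem_box] at hv hw
        have h1 : v - v0 - (w - v0) = v - w := by abel
        rw [h1]
        have := nm_sub_le v w
        simp only [D]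
        omega
  let M : ℕ := (n + 1) * R * nm P
  have hbox : (2 * R + 1) ^ (n + 1) ≤ (∏ i : Fin n, q i) * (2 * M + 1) := by
    have h1 := Finset.card_le_mul_card_image_of_maps_to (s := box (Fin (n + 1)) R)
      (t := Finset.Icc (-(M : ℤ)) M) (f := fun v => v ⬝ᵥ P) ?_ (∏ i : Fin n, q i)
      (fun b _ => hfib b)
    · rw [card_box, Fintype.card_fin, Int.card_Icc] at h1
      refine h1.trans_eq ?_
      congr 1
      omega
    · intro v hv
      rw [mem_box] at hv
      have h2 := natAbs_dot_le v P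
      rw [Fintype.card_fin] at h2
      have h3 : (n + 1) * nm v * nm P ≤ M := by
        simp only [M]
        gcongr
      rw [Finset.mem_Icc]
      omega
  have hprod : (∏ i : Fin n, q i) * (∏ i : Fin n, nm (l i)) ≤ (2 * D) ^ n := by
    rw [← Finset.prod_mul_distrib]
    calc ∏ i : Fin n, (q i * nm (l i)) ≤ ∏ _i : Fin n, (2 * D) := by
          apply Finset.prod_le_prod'
          intro i _
          have := hqD2 i
          simp only [rr, if_pos i.2] at this
          exact this
      _ = (2 * D) ^ n := by simp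
  have hP1 : 1 ≤ nm P := nm_pos hP
  have hfin : (2 * R + 1) ^ (n + 1) * (∏ i : Fin n, nm (l i))
      ≤ (2 * R + 1) ^ (n + 1) * (4 ^ n * (n + 1) * nm P) := by
    calc (2 * R + 1) ^ (n + 1) * (∏ i : Fin n, nm (l i))
        ≤ ((∏ i : Fin n, q i) * (2 * M + 1)) * (∏ i : Fin n, nm (l i)) := by gcongr
      _ = ((∏ i : Fin n, q i) * (∏ i : Fin n, nm (l i))) * (2 * M + 1) := by ring
      _ ≤ (2 * D) ^ n * (2 * M + 1) := by gcongr
      _ ≤ (4 * (2 * R + 1)) ^ n * ((n + 1) * nm P * (2 * R + 1)) := by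
          apply Nat.mul_le_mul
          · apply Nat.pow_le_pow_left
            simp only [D]
            omega
          · simp only [M]
            have h5 : 1 ≤ (n + 1) * nm P := Nat.one_le_iff_ne_zero.2 (by positivity)
            nlinarith [h5]
      _ = (2 * R + 1) ^ (n + 1) * (4 ^ n * (n + 1) * nm P) := by
          rw [mul_pow]
          ring
  exact Nat.le_of_mul_le_mul_left hfin (by positivity)

end Pool.Agent.R452.SZ
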