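import Mathlib

set_option autoImplicit false
set_option linter.unusedSectionVars false

/-! Hilbert functions of ideals of polynomial rings. -/

namespace Pool.Agent.R452.SZ

open MvPolynomial Module

variable {σ K : Type} [Finite σ] [Field K]

/-- The graded piece of degree `t` of the quotient `K[x]/I`: the image of the forms of
degree `t`. -/
noncomputable def piece (I : Ideal (MvPolynomial σ K)) (t : ℕ) :
    Submodule K (MvPolynomial σ K ⧸ I) :=
  (homogeneousSubmodule σ K t).map (Ideal.Quotient.mkₐ K I).toLinearMap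

/-- The Hilbert function of `K[x]/I`. -/
noncomputable def hf (I : Ideal (MvPolynomial σ K)) (t : ℕ) : ℕ := finrank K (piece I t)

lemma mem_piece {I : Ideal (MvPolynomial σ K)} {t : ℕ} {x : MvPolynomial σ K ⧸ I} :
    x ∈ piece I t ↔ ∃ f : MvPolynomial σ K, f.IsHomogeneous t ∧ Ideal.Quotient.mk I f = x := by
  unfold piece
  rw [Submodule.mem_map]
  rfl

instance finite_homog (t : ℕ) : Module.Finite K (homogeneousSubmodule σ K t) :=
  Module.Finite.iff_fg.2 (homogeneousSubmodule_fg σ K t)

instance finite_piece (I : Ideal (MvPolynomial σ K)) (t : ℕ) : Module.Finite K (piece I t) := by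
  unfold piece
  infer_instance

/-- rank-nullity -/
lemma finrank_map_add_le {V W : Type} [AddCommGroup V] [Module K V] [AddCommGroup W] [Module K W]
    (φ : V →ₗ[K] W) (S U : Submodule K V) [Module.Finite K S] (hUS : U ≤ S)
    (hU : U ≤ LinearMap.ker φ) : finrank K (S.map φ) + finrank K U ≤ finrank K S := by
  have h1 := LinearMap.finrank_range_add_finrank_ker (φ.domRestrict S)
  rw [LinearMap.range_domRestrict] at h1
  have h2 : finrank K U ≤ finrank K (LinearMap.ker (φ.domRestrict S)) := by
    have h3 : finrank K U = finrank K (Submodule.comap S.subtype U) :=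
      (Submodule.comapSubtypeEquivOfLe hUS).finrank_eq.symm
    rw [h3]
    apply Submodule.finrank_mono
    intro x hx
    rw [Submodule.mem_comap] at hx
    rw [LinearMap.mem_ker, LinearMap.domRestrict_apply]
    exact hU hx
  omega

lemma hf_anti {I J : Ideal (MvPolynomial σ K)} (h : I ≤ J) (t : ℕ) : hf J t ≤ hf I t := by
  have h1 : piece J t = (piece I t).map (Ideal.Quotient.factorₐ K h).toLinearMap := by
    unfold piece
    rw [← Submodule.map_comp]
    congr 1
  unfold hf
  rw [h1]
  exact Submodule.finrank_map_le _ _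

/-- cutting by a form of degree one outside a prime -/
lemma hf_cut {p J : Ideal (MvPolynomial σ K)} [hp : p.IsPrime] (hpJ : p ≤ J)
    {l : MvPolynomial σ K} (hl : l.IsHomogeneous 1) (hlp : l ∉ p) (hlJ : l ∈ J) (t : ℕ) :
    hf J (t + 1) + hf p t ≤ hf p (t + 1) := by
  let φ : (MvPolynomial σ K ⧸ p) →ₗ[K] (MvPolynomial σ K ⧸ J) :=
    (Ideal.Quotient.factorₐ K hpJ).toLinearMap
  have h1 : piece J (t + 1) = (piece p (t + 1)).map φ := by
    unfold piece
    rw [← Submodule.map_comp]
    congr 1
  let U : Submodule K (MvPolynomial σ K ⧸ p) :=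
    (piece p t).map (LinearMap.mulLeft K (Ideal.Quotient.mk p l))
  have hU : finrank K U = hf p t := by
    have hinj : Function.Injective (LinearMap.mulLeft K (Ideal.Quotient.mk p l)) := by
      intro x y hxy
      have hl0 : Ideal.Quotient.mk p l ≠ 0 := by
        rw [Ne, Ideal.Quotient.eq_zero_iff_mem]
        exact hlp
      exact mul_left_cancel₀ hl0 hxy
    exact (Submodule.equivMapOfInjective _ hinj (piece p t)).finrank_eq.symm
  have h2 := finrank_map_add_le φ (piece p (t + 1)) U ?_ ?_
  · unfold hf at *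
    rw [h1, ← hU]
    exact h2
  · rintro _ ⟨x, hx, rfl⟩
    obtain ⟨f, hf1, rfl⟩ := mem_piece.1 hx
    rw [mem_piece]
    refine ⟨l * f, ?_, by simp⟩
    rw [add_comm]
    exact hl.mul hf1
  · rintro _ ⟨x, hx, rfl⟩
    obtain ⟨f, hf1, rfl⟩ := mem_piece.1 hx
    rw [LinearMap.mem_ker]
    show Ideal.Quotient.factor hpJ (Ideal.Quotient.mk p l * Ideal.Quotient.mk p f) = 0
    rw [← map_mul, Ideal.Quotient.factor_mk, Ideal.Quotient.eq_zero_iff_mem]
    exact J.mul_mem_right _ hlJ

lemma sum_hf_cut {p J : Ideal (MvPolynomial σ K)} [hp : p.IsPrime] (hpJ : p ≤ J)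
    {l : MvPolynomial σ K} (hl : l.IsHomogeneous 1) (hlp : l ∉ p) (hlJ : l ∈ J) (T : ℕ) :
    ∑ t ∈ Finset.range (T + 1), hf J t ≤ hf p T := by
  induction T with
  | zero =>
    rw [Finset.sum_range_one]
    exact hf_anti hpJ 0
  | succ T ih =>
    rw [Finset.sum_range_succ]
    have := hf_cut hpJ hl hlp hlJ T
    omega

/-- the Hilbert functions of finitely many primes separated by forms -/
lemma sum_hf_le {ι : Type} [Fintype ι] (J : Ideal (MvPolynomial σ K))
    (q : ι → Ideal (MvPolynomial σ K)) (hq : ∀ i, (q i).IsPrime) (hJq : ∀ i, J ≤ q i)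
    (g : ι → MvPolynomial σ K) (e : ι → ℕ) (hg : ∀ i, (g i).IsHomogeneous (e i))
    (hgi : ∀ i, g i ∉ q i) (hgj : ∀ i j, i ≠ j → g i ∈ q j) (t : ℕ) (ht : ∀ i, e i ≤ t) :
    ∑ i, hf (q i) (t - e i) ≤ hf J t := by
  classical
  let Ψ : (MvPolynomial σ K ⧸ J) →ₗ[K] (∀ i, MvPolynomial σ K ⧸ q i) :=
    LinearMap.pi fun i => (Ideal.Quotient.factorₐ K (hJq i)).toLinearMap
  let T : (∀ i, piece (q i) (t - e i)) →ₗ[K] (∀ i, MvPolynomial σ K ⧸ q i) :=
    LinearMap.pi fun i => (LinearMap.mulLeft K (Ideal.Quotient.mk (q i) (g i))) ∘ₗ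
      (piece (q i) (t - e i)).subtype ∘ₗ LinearMap.proj i
  have hTinj : Function.Injective T := by
    rw [injective_iff_map_eq_zero]
    intro u hu
    funext i
    have h1 : Ideal.Quotient.mk (q i) (g i) * (u i : MvPolynomial σ K ⧸ q i) = 0 := congrFun hu i
    have := hq i
    rcases mul_eq_zero.1 h1 with h | h
    · rw [Ideal.Quotient.eq_zero_iff_mem] at h
      exact absurd h (hgi i)
    · exact Subtype.ext h
  have hTmem : ∀ u, T u ∈ (piece J t).map Ψ := by
    intro u
    have h1 : ∀ i, ∃ f : MvPolynomial σ K, f.IsHomogeneous (t - e i) ∧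
        Ideal.Quotient.mk (q i) f = (u i : MvPolynomial σ K ⧸ q i) := fun i =>
      mem_piece.1 (u i).2
    choose f hf1 hf2 using h1
    refine ⟨Ideal.Quotient.mk J (∑ i, g i * f i), ?_, ?_⟩
    · rw [SetLike.mem_coe, mem_piece]
      refine ⟨_, ?_, rfl⟩
      apply MvPolynomial.IsHomogeneous.sum
      intro i _
      have := (hg i).mul (hf1 i)
      rwa [Nat.add_sub_cancel' (ht i)] at this
    · funext j
      show Ideal.Quotient.factor (hJq j) (Ideal.Quotient.mk J (∑ i, g i * f i))
        = Ideal.Quotient.mk (q j) (g j) * (u j : MvPolynomial σ K ⧸ q j)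
      rw [Ideal.Quotient.factor_mk, map_sum, Finset.sum_eq_single j]
      · rw [map_mul, hf2]
      · intro i _ hij
        rw [Ideal.Quotient.eq_zero_iff_mem]
        exact (q j).mul_mem_right _ (hgj i j hij)
      · intro h
        exact absurd (Finset.mem_univ j) h
  have h2 : finrank K (∀ i, piece (q i) (t - e i)) ≤ finrank K ((piece J t).map Ψ) := by
    apply LinearMap.finrank_le_finrank_of_injective (f := T.codRestrict _ hTmem)
    intro u v huv
    apply hTinj
    exact congrArg Subtype.val huv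
  have hfree : ∀ i, Module.Free K ↥(piece (q i) (t - e i)) := fun i =>
    Module.Free.of_divisionRing K _
  rw [Module.finrank_pi_fintype K] at h2
  exact h2.trans (Submodule.finrank_map_le _ _)

end Pool.Agent.R452.SZ
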