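import Pool.Agent.R452.SZ.Gam
import Pool.Agent.R452.SZ.Alg
import Pool.Agent.R452.SZ.Hilb

set_option autoImplicit false
set_option linter.unusedSectionVars false

/-! Linear forms, points and homogeneous primes. -/

namespace Pool.Agent.R452.SZ

open MvPolynomial Module Algebra

variable {n : ℕ}

/-- the linear form with given coefficients -/
noncomputable def linQ (x : Fin (n + 1) → ℚ) : MvPolynomial (Fin (n + 1)) ℚ := ∑ i, C (x i) * X i

/-- the linear form with given integral coefficients -/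
noncomputable def linF (l : Fin (n + 1) → ℤ) : MvPolynomial (Fin (n + 1)) ℚ := linQ (toQ l)

lemma linQ_hom (x : Fin (n + 1) → ℚ) : (linQ x).IsHomogeneous 1 := by
  unfold linQ
  apply MvPolynomial.IsHomogeneous.sum
  intro i _
  exact isHomogeneous_C_mul_X _ _

lemma linF_hom (l : Fin (n + 1) → ℤ) : (linF l).IsHomogeneous 1 := linQ_hom _

lemma eval_linF (l P : Fin (n + 1) → ℤ) : eval (toQ P) (linF l) = ((l ⬝ᵥ P : ℤ) : ℚ) := by
  rw [← dot_toQ]
  simp [linF, linQ, dotProduct]

lemma linQ_add (x y : Fin (n + 1) → ℚ) : linQ (x + y) = linQ x + linQ y := by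
  simp [linQ, add_mul, Finset.sum_add_distrib]

lemma linQ_smul (c : ℚ) (x : Fin (n + 1) → ℚ) : linQ (c • x) = c • linQ x := by
  simp only [linQ, Finset.smul_sum, Pi.smul_apply, smul_eq_mul]
  apply Finset.sum_congr rfl
  intro i _
  rw [C_mul, mul_assoc, smul_eq_C_mul]

lemma linQ_zero : linQ (0 : Fin (n + 1) → ℚ) = 0 := by
  simp [linQ]

/-- the integral linear forms in an ideal -/
noncomputable def linSub (p : Ideal (MvPolynomial (Fin (n + 1)) ℚ)) :
    AddSubgroup (Fin (n + 1) → ℤ) where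
  carrier := {l | linF l ∈ p}
  zero_mem' := by
    show linQ (toQ 0) ∈ p
    rw [toQ_zero, linQ_zero]
    exact p.zero_mem
  add_mem' := by
    intro a b ha hb
    show linQ (toQ (a + b)) ∈ p
    rw [toQ_add, linQ_add]
    exact p.add_mem ha hb
  neg_mem' := by
    intro a ha
    show linQ (toQ (-a)) ∈ p
    have h1 : toQ (-a) = (-1 : ℚ) • toQ a := by
      funext i
      simp [toQ]
    rw [h1, linQ_smul, smul_eq_C_mul]
    exact p.mul_mem_left _ ha

lemma mem_linSub {p : Ideal (MvPolynomial (Fin (n + 1)) ℚ)} {l : Fin (n + 1) → ℤ} :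
    l ∈ linSub p ↔ linF l ∈ p := Iff.rfl

/-- the point `P` lies on the zero set of the ideal -/
def Van (p : Ideal (MvPolynomial (Fin (n + 1)) ℚ)) (P : Fin (n + 1) → ℤ) : Prop :=
  ∀ f ∈ p, eval (toQ P) f = 0

lemma Van.lin {p : Ideal (MvPolynomial (Fin (n + 1)) ℚ)} {P : Fin (n + 1) → ℤ} (h : Van p P)
    {l : Fin (n + 1) → ℤ} (hl : l ∈ linSub p) : l ⬝ᵥ P = 0 := by
  have := h _ (mem_linSub.1 hl)
  rw [eval_linF] at this
  exact_mod_cast this

/-- not too many independent linear forms vanish on a variety of dimension `r` -/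
lemma exists_lin_notMem (p : Ideal (MvPolynomial (Fin (n + 1)) ℚ)) [hp : p.IsPrime] (r : ℕ)
    (hr1 : 1 ≤ r) (hrn : r ≤ n)
    (htr : ((r + 1 : ℕ) : Cardinal) ≤ Algebra.trdeg ℚ (MvPolynomial (Fin (n + 1)) ℚ ⧸ p))
    (l : Fin n → (Fin (n + 1) → ℤ)) (hl : LinearIndependent ℚ (fun i => toQ (l i))) :
    ∃ j : Fin n, (j : ℕ) ≤ n - r ∧ linF (l j) ∉ p := by
  classical
  by_contra hcon
  push Not at hcon
  let Λ : (Fin (n + 1) → ℚ) →ₗ[ℚ] (MvPolynomial (Fin (n + 1)) ℚ ⧸ p) :=
    { toFun := fun x => Ideal.Quotient.mk p (linQ x)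
      map_add' := fun x y => by rw [linQ_add, map_add]
      map_smul' := fun c x => by rw [linQ_smul]; rfl }
  have hΛ : ∀ x, Λ x = Ideal.Quotient.mk p (linQ x) := fun x => rfl
  let l' : Fin (n - r + 1) → (Fin (n + 1) → ℚ) := fun j => toQ (l ⟨j, by have := j.2; omega⟩)
  have hl' : LinearIndependent ℚ l' := by
    apply hl.comp (fun j : Fin (n - r + 1) => (⟨j, by have := j.2; omega⟩ : Fin n))
    intro a b hab
    simpa [Fin.ext_iff] using hab
  have hker : Submodule.span ℚ (Set.range l') ≤ LinearMap.ker Λ := by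
    rw [Submodule.span_le]
    rintro _ ⟨j, rfl⟩
    rw [SetLike.mem_coe, LinearMap.mem_ker, hΛ, Ideal.Quotient.eq_zero_iff_mem]
    apply hcon
    have := j.2
    simp only
    omega
  have h1 : n - r + 1 ≤ finrank ℚ (LinearMap.ker Λ) := by
    have := Submodule.finrank_mono hker
    rwa [finrank_span_eq_card hl', Fintype.card_fin] at this
  have h2 := LinearMap.finrank_range_add_finrank_ker Λ
  rw [finrank_fintype_fun_eq_card, Fintype.card_fin] at h2
  have h3 : finrank ℚ (LinearMap.range Λ) ≤ r := by omega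
  let b := Module.finBasis ℚ (LinearMap.range Λ)
  let s : Set (MvPolynomial (Fin (n + 1)) ℚ ⧸ p) :=
    Set.range (fun i => (b i : MvPolynomial (Fin (n + 1)) ℚ ⧸ p))
  have hrange : ∀ w ∈ LinearMap.range Λ, w ∈ Algebra.adjoin ℚ s := by
    intro w hw
    have h4 := b.sum_repr ⟨w, hw⟩
    have h5 := congrArg Subtype.val h4
    simp only [AddSubmonoidClass.coe_finsetSum, Submodule.coe_smul] at h5
    rw [← h5]
    apply Subalgebra.sum_mem
    intro i _
    apply Subalgebra.smul_mem
    exact Algebra.subset_adjoin ⟨i, rfl⟩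
  have htop : ∀ x : MvPolynomial (Fin (n + 1)) ℚ ⧸ p, x ∈ Algebra.adjoin ℚ s := by
    intro x
    obtain ⟨f, rfl⟩ := Ideal.Quotient.mk_surjective x
    induction f using MvPolynomial.induction_on with
    | C a => exact Subalgebra.algebraMap_mem _ a
    | add f g hf hg => rw [map_add]; exact Subalgebra.add_mem _ hf hg
    | mul_X f i hf =>
      rw [map_mul]
      apply Subalgebra.mul_mem _ hf
      apply hrange
      refine ⟨Pi.single i 1, ?_⟩
      rw [hΛ]
      congr 1
      unfold linQ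
      rw [Finset.sum_eq_single i]
      · simp
      · intro j _ hj
        simp [hj]
      · intro h
        exact absurd (Finset.mem_univ i) h
  have halg : Algebra.IsAlgebraic (Algebra.adjoin ℚ s) (MvPolynomial (Fin (n + 1)) ℚ ⧸ p) := by
    constructor
    intro x
    exact isAlgebraic_algebraMap (⟨x, htop x⟩ : Algebra.adjoin ℚ s)
  have h6 := Algebra.IsAlgebraic.trdeg_le_cardinalMk ℚ s
  have h7 : Cardinal.mk s ≤ ((finrank ℚ (LinearMap.range Λ) : ℕ) : Cardinal) := by
    refine Cardinal.mk_range_le.trans ?_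
    rw [Cardinal.mk_fin]
  have h8 : ((r + 1 : ℕ) : Cardinal) ≤ ((finrank ℚ (LinearMap.range Λ) : ℕ) : Cardinal) :=
    htr.trans (h6.trans h7)
  have h9 : r + 1 ≤ finrank ℚ (LinearMap.range Λ) := by exact_mod_cast h8
  omega

end Pool.Agent.R452.SZ
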