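import Pool.Agent.R452.SZ.Pts

set_option autoImplicit false
set_option linter.unusedSectionVars false

/-! Homogeneous primes: points, minimal primes, separating forms. -/

namespace Pool.Agent.R452.SZ

open MvPolynomial Module Algebra

variable {n : ℕ}

attribute [local instance] MvPolynomial.gradedAlgebra

/-- the restriction of a polynomial to the line through the origin and `P` -/
noncomputable def restr (P : Fin (n + 1) → ℤ) :
    MvPolynomial (Fin (n + 1)) ℚ →ₐ[ℚ] Polynomial ℚ :=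
  aeval fun i => Polynomial.C (toQ P i) * Polynomial.X

lemma restr_hom (P : Fin (n + 1) → ℤ) {f : MvPolynomial (Fin (n + 1)) ℚ} {e : ℕ}
    (hf : f.IsHomogeneous e) : restr P f = Polynomial.C (eval (toQ P) f) * Polynomial.X ^ e := by
  have h1 : ∀ d ∈ f.support, restr P (monomial d (coeff d f))
      = Polynomial.C (eval (toQ P) (monomial d (coeff d f))) * Polynomial.X ^ e := by
    intro d hd
    have h2 : d.degree = e := by
      by_contra h
      exact (mem_support_iff.1 hd) (hf.coeff_eq_zero h)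
    unfold restr
    rw [aeval_monomial, eval_monomial]
    have h3 : (d.prod fun i k => (Polynomial.C (toQ P i) * Polynomial.X) ^ k)
        = Polynomial.C (d.prod fun i k => toQ P i ^ k) * Polynomial.X ^ e := by
      simp only [mul_pow, Finsupp.prod_mul]
      congr 1
      · rw [Finsupp.prod, Finsupp.prod, map_prod]
        simp
      · rw [Finsupp.prod, Finset.prod_pow_eq_pow_sum, ← h2]
        rfl
    rw [h3, map_mul]
    rw [← mul_assoc]
    rfl
  have h4 : f = ∑ d ∈ f.support, monomial d (coeff d f) := f.as_sum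
  conv_lhs => rw [h4, map_sum, Finset.sum_congr rfl h1]
  conv_rhs => rw [h4, map_sum, map_sum, Finset.sum_mul]

/-- the homogeneous ideal of the point `P` -/
noncomputable def ptI (P : Fin (n + 1) → ℤ) : Ideal (MvPolynomial (Fin (n + 1)) ℚ) :=
  RingHom.ker (restr P)

lemma ptI_prime (P : Fin (n + 1) → ℤ) : (ptI P).IsPrime := RingHom.ker_isPrime _

lemma le_ptI {p : Ideal (MvPolynomial (Fin (n + 1)) ℚ)}
    (hhom : p.IsHomogeneous (homogeneousSubmodule (Fin (n + 1)) ℚ)) {P : Fin (n + 1) → ℤ}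
    (hP : Van p P) : p ≤ ptI P := by
  intro f hf
  show restr P f = 0
  rw [← sum_homogeneousComponent f, map_sum]
  apply Finset.sum_eq_zero
  intro e _
  rw [restr_hom P (homogeneousComponent_isHomogeneous e f),
    hP _ ((mem_iff_homogeneousComponent_mem hhom f).1 hf e)]
  simp

lemma one_le_trdeg_ptI {P : Fin (n + 1) → ℤ} (hP : P ≠ 0) :
    1 ≤ Algebra.trdeg ℚ (MvPolynomial (Fin (n + 1)) ℚ ⧸ ptI P) := by
  obtain ⟨i, hi⟩ : ∃ i, P i ≠ 0 := by
    by_contra h
    push Not at h
    exact hP (funext h)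
  rw [Cardinal.one_le_iff_ne_zero, trdeg_ne_zero_iff]
  refine ⟨Ideal.Quotient.mk (ptI P) (X i), ?_⟩
  intro halg
  have h1 := IsAlgebraic.algHom (Ideal.kerLiftAlg (restr P)) halg
  have h2 : Ideal.kerLiftAlg (restr P) (Ideal.Quotient.mk (ptI P) (X i))
      = Polynomial.C (toQ P i) * Polynomial.X := by
    have : Ideal.kerLiftAlg (restr P) (Ideal.Quotient.mk (ptI P) (X i)) = restr P (X i) := rfl
    rw [this]
    simp [restr]
  rw [h2] at h1
  have hne : toQ P i ≠ 0 := by simpa [toQ] using hi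
  have h3 : IsAlgebraic ℚ (Polynomial.X : Polynomial ℚ) := by
    have h4 := h1.smul ((toQ P i)⁻¹)
    rw [Polynomial.smul_eq_C_mul, ← mul_assoc, ← map_mul, inv_mul_cancel₀ hne, map_one,
      one_mul] at h4
    exact h4
  exact Polynomial.transcendental_X ℚ h3

/-- a variety of dimension zero has at most one rational point -/
lemma one_point {p : Ideal (MvPolynomial (Fin (n + 1)) ℚ)} [hp : p.IsPrime]
    (hhom : p.IsHomogeneous (homogeneousSubmodule (Fin (n + 1)) ℚ))
    (htr : Algebra.trdeg ℚ (MvPolynomial (Fin (n + 1)) ℚ ⧸ p) = 1) {P Q : Fin (n + 1) → ℤ}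
    (hP : P ≠ 0) (hQ : Q ≠ 0) (hPp : Van p P) (hQp : Van p Q) (i j : Fin (n + 1)) :
    P i * Q j = P j * Q i := by
  have key : ∀ R : Fin (n + 1) → ℤ, R ≠ 0 → Van p R → p = ptI R := by
    intro R hR hRp
    by_contra hne
    have hlt : p < ptI R := lt_of_le_of_ne (le_ptI hhom hRp) hne
    have hprime := ptI_prime R
    have h1 := trdeg_quot_add_one_le (K := ℚ) p (ptI R) hlt
    rw [htr] at h1
    have h2 := one_le_trdeg_ptI hR
    have h3 : (1 : Cardinal) + 1 ≤ 1 := (add_le_add_left h2 1).trans h1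
    have h4 : (1 : Cardinal) + 1 = ((2 : ℕ) : Cardinal) := by norm_num
    rw [h4, ← Nat.cast_one, Nat.cast_le] at h3
    omega
  have hPQ : ptI P = ptI Q := (key P hP hPp).symm.trans (key Q hQ hQp)
  have h1 : C (toQ P i) * X j - C (toQ P j) * X i ∈ ptI P := by
    show restr P _ = 0
    simp only [restr, map_sub, map_mul, aeval_X, aeval_C]
    show Polynomial.C (toQ P i) * (Polynomial.C (toQ P j) * Polynomial.X)
      - Polynomial.C (toQ P j) * (Polynomial.C (toQ P i) * Polynomial.X) = 0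
    ring
  rw [hPQ] at h1
  have h2 : Polynomial.C (toQ P i) * (Polynomial.C (toQ Q j) * Polynomial.X)
      - Polynomial.C (toQ P j) * (Polynomial.C (toQ Q i) * Polynomial.X) = 0 := by
    have h3 : restr Q (C (toQ P i) * X j - C (toQ P j) * X i) = 0 := h1
    simp only [restr, map_sub, map_mul, aeval_X, aeval_C] at h3
    exact h3
  have h4 := congrArg (Polynomial.eval 1) h2
  simp only [Polynomial.eval_sub, Polynomial.eval_mul, Polynomial.eval_C, Polynomial.eval_X,
    mul_one, Polynomial.eval_zero, toQ] at h4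
  have h5 : (P i : ℚ) * Q j = P j * Q i := by linarith
  exact_mod_cast h5

/-- minimal primes over homogeneous ideals are homogeneous -/
lemma minimalPrimes_hom {J q : Ideal (MvPolynomial (Fin (n + 1)) ℚ)}
    (hJ : J.IsHomogeneous (homogeneousSubmodule (Fin (n + 1)) ℚ)) (hq : q ∈ J.minimalPrimes) :
    q.IsHomogeneous (homogeneousSubmodule (Fin (n + 1)) ℚ) := by
  rw [Ideal.IsHomogeneous.iff_eq]
  apply le_antisymm (Ideal.toIdeal_homogeneousCore_le _ _)
  have h1 : (q.homogeneousCore (homogeneousSubmodule (Fin (n + 1)) ℚ)).toIdeal.IsPrime :=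
    Ideal.IsPrime.homogeneousCore hq.1.1
  apply hq.2 ⟨h1, ?_⟩ (Ideal.toIdeal_homogeneousCore_le _ _)
  rw [← hJ.toIdeal_homogeneousCore_eq_self]
  exact Ideal.homogeneousCore_mono _ hq.1.2

/-- separating forms -/
lemma exists_sep_forms (s : Finset (Ideal (MvPolynomial (Fin (n + 1)) ℚ)))
    (hp : ∀ q ∈ s, q.IsPrime)
    (hhom : ∀ q ∈ s, q.IsHomogeneous (homogeneousSubmodule (Fin (n + 1)) ℚ))
    (hinc : ∀ q ∈ s, ∀ q' ∈ s, q ≤ q' → q = q') (q : Ideal (MvPolynomial (Fin (n + 1)) ℚ))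
    (hq : q ∈ s) : ∃ (g : MvPolynomial (Fin (n + 1)) ℚ) (e : ℕ), g.IsHomogeneous e ∧ g ∉ q ∧
      ∀ q' ∈ s, q' ≠ q → g ∈ q' := by
  classical
  have h1 : ∀ q' : Ideal (MvPolynomial (Fin (n + 1)) ℚ),
      ∃ (f : MvPolynomial (Fin (n + 1)) ℚ) (e : ℕ), q' ∈ s → q' ≠ q →
        f.IsHomogeneous e ∧ f ∉ q ∧ f ∈ q' := by
    intro q'
    by_cases h : q' ∈ s ∧ q' ≠ q
    · have h2 : ¬ q' ≤ q := fun hle => h.2 (hinc q' h.1 q hq hle)
      obtain ⟨f, hf1, hf2⟩ := SetLike.not_le_iff_exists.1 h2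
      have h3 : ∃ e, homogeneousComponent e f ∉ q := by
        by_contra hall
        push Not at hall
        apply hf2
        rw [← sum_homogeneousComponent f]
        exact Ideal.sum_mem _ fun e _ => hall e
      obtain ⟨e, he⟩ := h3
      exact ⟨homogeneousComponent e f, e, fun _ _ =>
        ⟨homogeneousComponent_isHomogeneous e f, he,
          (mem_iff_homogeneousComponent_mem (hhom q' h.1) f).1 hf1 e⟩⟩
    · exact ⟨0, 0, fun h3 h4 => absurd ⟨h3, h4⟩ h⟩
  choose f e hfe using h1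
  refine ⟨∏ q' ∈ s.erase q, f q', ∑ q' ∈ s.erase q, e q', ?_, ?_, ?_⟩
  · apply MvPolynomial.IsHomogeneous.prod
    intro q' hq'
    rw [Finset.mem_erase] at hq'
    exact (hfe q' hq'.2 hq'.1).1
  · intro hmem
    have hpq := hp q hq
    rw [hpq.prod_mem_iff] at hmem
    obtain ⟨q', hq', hmem'⟩ := hmem
    rw [Finset.mem_erase] at hq'
    exact (hfe q' hq'.2 hq'.1).2.1 hmem'
  · intro q' hq' hne
    apply Ideal.mem_of_dvd _ (Finset.dvd_prod_of_mem f (Finset.mem_erase.2 ⟨hne, hq'⟩))
    exact (hfe q' hq' hne).2.2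

end Pool.Agent.R452.SZ
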