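import Mathlib

set_option autoImplicit false
set_option linter.unusedSectionVars false

/-! Integer vectors, sup norms, boxes. -/

namespace Pool.Agent.R452.SZ

open Finset

variable {ι : Type} [Fintype ι]

/-- sup norm of an integer vector -/
def nm (v : ι → ℤ) : ℕ := Finset.univ.sup fun i => (v i).natAbs

lemma nm_le_iff {v : ι → ℤ} {R : ℕ} : nm v ≤ R ↔ ∀ i, (v i).natAbs ≤ R := by
  unfold nm
  simp [Finset.sup_le_iff]

lemma le_nm (v : ι → ℤ) (i : ι) : (v i).natAbs ≤ nm v := nm_le_iff.1 le_rfl i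

lemma nm_zero : nm (0 : ι → ℤ) = 0 := by
  apply Nat.le_zero.1
  rw [nm_le_iff]
  simp

lemma nm_pos {v : ι → ℤ} (hv : v ≠ 0) : 0 < nm v := by
  by_contra h
  apply hv
  funext i
  have := le_nm v i
  simp only [Pi.zero_apply]
  omega

lemma nm_add_le (v w : ι → ℤ) : nm (v + w) ≤ nm v + nm w := by
  rw [nm_le_iff]
  intro i
  exact (Int.natAbs_add_le _ _).trans (add_le_add (le_nm v i) (le_nm w i))

lemma nm_neg (v : ι → ℤ) : nm (-v) = nm v := by
  unfold nm
  simp

lemma nm_sub_le (v w : ι → ℤ) : nm (v - w) ≤ nm v + nm w := by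
  rw [sub_eq_add_neg]
  exact (nm_add_le v (-w)).trans (by rw [nm_neg])

lemma nm_smul (c : ℤ) (v : ι → ℤ) : nm (c • v) = c.natAbs * nm v := by
  apply le_antisymm
  · rw [nm_le_iff]
    intro i
    simp only [Pi.smul_apply, smul_eq_mul, Int.natAbs_mul]
    exact Nat.mul_le_mul_left _ (le_nm v i)
  · by_cases hc : c = 0
    · simp [hc]
    · rcases isEmpty_or_nonempty ι with h | h
      · unfold nm
        simp
      · obtain ⟨i, -, hi⟩ := Finset.exists_mem_eq_sup (Finset.univ : Finset ι) Finset.univ_nonempty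
          (fun i => (v i).natAbs)
        have h1 : nm v = (v i).natAbs := hi
        rw [h1, ← Int.natAbs_mul]
        exact le_nm (c • v) i

lemma nm_sum_le {κ : Type} (s : Finset κ) (f : κ → ι → ℤ) : nm (∑ k ∈ s, f k) ≤ ∑ k ∈ s, nm (f k) := by
  classical
  induction s using Finset.induction_on with
  | empty => simp [nm_zero]
  | insert a s ha ih =>
    rw [Finset.sum_insert ha, Finset.sum_insert ha]
    exact (nm_add_le _ _).trans (add_le_add le_rfl ih)

lemma natAbs_dot_le (v w : ι → ℤ) : (v ⬝ᵥ w).natAbs ≤ Fintype.card ι * nm v * nm w := by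
  unfold dotProduct
  refine (Int.natAbs_sum_le _ _).trans ?_
  calc ∑ i, (v i * w i).natAbs ≤ ∑ _i : ι, nm v * nm w := by
        apply Finset.sum_le_sum
        intro i _
        rw [Int.natAbs_mul]
        exact Nat.mul_le_mul (le_nm v i) (le_nm w i)
    _ = Fintype.card ι * nm v * nm w := by
        rw [Finset.sum_const, Finset.card_univ, smul_eq_mul, mul_assoc]

/-- the box of integer vectors of norm at most `R` -/
noncomputable def box (ι : Type) [Fintype ι] (R : ℕ) : Finset (ι → ℤ) := by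
  classical
  exact Fintype.piFinset fun _ => Finset.Icc (-(R : ℤ)) R

lemma mem_box {R : ℕ} {v : ι → ℤ} : v ∈ box ι R ↔ nm v ≤ R := by
  classical
  unfold box
  rw [Fintype.mem_piFinset, nm_le_iff]
  refine forall_congr' fun i => ?_
  rw [Finset.mem_Icc]
  omega

lemma card_box (R : ℕ) : (box ι R).card = (2 * R + 1) ^ Fintype.card ι := by
  classical
  unfold box
  rw [Fintype.card_piFinset]
  simp only [Int.card_Icc, Finset.prod_const, Finset.card_univ]
  congr 1
  omega

/-- the rational vector of an integer vector -/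
def toQ (v : ι → ℤ) : ι → ℚ := fun i => (v i : ℚ)

lemma toQ_add (v w : ι → ℤ) : toQ (v + w) = toQ v + toQ w := by
  funext i; simp [toQ]

lemma toQ_sub (v w : ι → ℤ) : toQ (v - w) = toQ v - toQ w := by
  funext i; simp [toQ]

lemma toQ_smul (c : ℤ) (v : ι → ℤ) : toQ (c • v) = (c : ℚ) • toQ v := by
  funext i; simp [toQ]

lemma toQ_zero : toQ (0 : ι → ℤ) = 0 := by
  funext i; simp [toQ]

lemma toQ_sum {κ : Type} (s : Finset κ) (f : κ → ι → ℤ) : toQ (∑ k ∈ s, f k) = ∑ k ∈ s, toQ (f k) := by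
  classical
  induction s using Finset.induction_on with
  | empty => simp [toQ_zero]
  | insert a s ha ih => rw [Finset.sum_insert ha, Finset.sum_insert ha, toQ_add, ih]

lemma toQ_inj {v w : ι → ℤ} (h : toQ v = toQ w) : v = w := by
  funext i
  have := congrFun h i
  simpa [toQ] using this

lemma toQ_ne_zero {v : ι → ℤ} (hv : v ≠ 0) : toQ v ≠ 0 := by
  intro h
  apply hv
  apply toQ_inj
  rw [h, toQ_zero]

lemma dot_toQ (v w : ι → ℤ) : toQ v ⬝ᵥ toQ w = ((v ⬝ᵥ w : ℤ) : ℚ) := by
  simp [dotProduct, toQ]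

/-- clearing denominators -/
lemma exists_int_multiple (x : ι → ℚ) : ∃ d : ℤ, d ≠ 0 ∧ ∃ v : ι → ℤ, toQ v = (d : ℚ) • x := by
  obtain ⟨b, hb⟩ := IsLocalization.exist_integer_multiples_of_finite (nonZeroDivisors ℤ) x
  refine ⟨b, nonZeroDivisors.ne_zero b.2, ?_⟩
  choose v hv using hb
  refine ⟨v, ?_⟩
  funext i
  have := hv i
  simp only [toQ, Pi.smul_apply, smul_eq_mul]
  rw [← eq_intCast (algebraMap ℤ ℚ) (v i), this]
  simp

end Pool.Agent.R452.SZ
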